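import Pool.Agent.K6.H45.RT.Stm

/-! Cliques for several types of forms (after `Pool.Agent.N646.RG.Clq`). -/

set_option autoImplicit false

namespace Pool.Agent.K6.H45.RT

open Finset Filter Topology
open Pool.Agent.N646.RO (S_WC HitM badU)

theorem ceilM (T : ℕ) (hT : 1 ≤ T) : ∃ M : ℕ, (18 / 5 : ℝ) * (M : ℝ) < T ∧
    (T : ℝ) ≤ (18 / 5) * ((M + 1 : ℕ) : ℝ) := by
  have hlam : (0 : ℝ) < 18 / 5 := by norm_num
  have hTr : (0 : ℝ) < T := by exact_mod_cast hT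
  obtain ⟨M, hM⟩ : ∃ M : ℕ, M + 1 = ⌈(T : ℝ) / (18 / 5)⌉₊ := by
    have : 0 < ⌈(T : ℝ) / (18 / 5)⌉₊ := Nat.ceil_pos.2 (by positivity)
    exact ⟨⌈(T : ℝ) / (18 / 5)⌉₊ - 1, by omega⟩
  refine ⟨M, ?_, ?_⟩
  · have h1 : (M : ℝ) < (T : ℝ) / (18 / 5) := by
      rw [← Nat.lt_ceil]
      omega
    rw [lt_div_iff₀ hlam] at h1
    linarith
  · rw [hM]
    have h1 := Nat.le_ceil ((T : ℝ) / (18 / 5))
    rw [div_le_iff₀ hlam] at h1
    linarith

theorem min_pos' (f : ℕ → ℝ) (hf : ∀ n, 0 < f n) (M : ℕ) : ∃ κ : ℝ, 0 < κ ∧ ∀ n ≤ M, κ ≤ f n := by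
  induction M with
  | zero => exact ⟨f 0, hf 0, fun n hn => by rw [Nat.le_zero.1 hn]⟩
  | succ M ih =>
    obtain ⟨κ, h1, h2⟩ := ih
    refine ⟨min κ (f (M + 1)), lt_min h1 (hf _), fun n hn => ?_⟩
    rcases Nat.lt_or_ge n (M + 1) with h | h
    · exact (min_le_left _ _).trans (h2 n (by omega))
    · have : n = M + 1 := by omega
      rw [this]
      exact min_le_right _ _

theorem inj2 {α : Type} {a b : α} (h : a ≠ b) : Function.Injective ![a, b] := by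
  intro i j hij
  fin_cases i <;> fin_cases j
  · rfl
  · exact absurd hij h
  · exact absurd hij.symm h
  · rfl

theorem sumc (a b m : ℕ) (d t : ℝ) :
    ∑ _τ : Fin a × Fin b → Fin m, d * t ^ (a * b) = d * (m * t) ^ (a * b) := by
  rw [sum_const, nsmul_eq_mul, card_univ, Fintype.card_fun, Fintype.card_prod, Fintype.card_fin,
    Fintype.card_fin, Fintype.card_fin, mul_pow]
  push_cast
  ring

theorem mem_badU {α : Type} [DecidableEq α] (k : ℕ) (A : Finset α) (G : Finset α → Prop)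
    (y : Fin (k + 1) → α) (h1 : ∀ i, y i ∈ A) (h2 : Function.Injective y)
    (h3 : ¬ G (univ.image y)) : y ∈ badU k A G := by
  classical
  unfold badU
  rw [mem_filter, Fintype.mem_piFinset]
  exact ⟨h1, h2, h3⟩

open Classical in
theorem hitM_of {lam : ℝ} {α : Type} [DecidableEq α] {Kf : ℕ → ℕ} {M : ℕ} {δ' : ℝ} {V : Finset α}
    {G : Finset α → Prop} (h : ∀ T' : ℕ, 1 ≤ T' → T' ≤ M →
      ∃ B : Finset (Fin T' × Fin (Kf T') → α), (B.card : ℝ) ≤ δ' * (V.card : ℝ) ^ (T' * Kf T') ∧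
        ∀ H, (∀ x, H x ∈ V) → (¬ ∃ (S : Finset (Fin T')) (c : Fin T' → Fin (Kf T')),
          (T' : ℝ) ≤ lam * (S.card : ℝ) ∧ G (S.image (fun g => H (g, c g)))) → H ∈ B) :
    HitM lam Kf M δ' V G := by
  intro T' h1 h2
  obtain ⟨B, hB1, hB2⟩ := h T' h1 h2
  refine le_trans ?_ hB1
  rw [Nat.cast_le]
  apply card_le_card
  intro H hH'
  rw [mem_filter, Fintype.mem_piFinset] at hH'
  exact hB2 H hH'.1 hH'.2.2

theorem Gdf_mono {k : ℕ} {κ κ' : ℝ} {N : ℕ} {F : Fin (k + 1) → ℤ × ℤ} (h : κ' ≤ κ) (hF : Gdf κ N F) :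
    Gdf κ' N F := by
  unfold Gdf at hF ⊢
  refine le_trans (mul_le_mul_of_nonneg_right h ?_) hF
  have : 0 ≤ Real.log (N : ℝ) := Real.log_natCast_nonneg N
  positivity

open Classical in
/-- **cliques for `m` types of forms** -/
theorem clq (hWC : S_WC) (hH : S_HITM2 1) (m : ℕ) (hm : 1 ≤ m) (ε : ℝ) (hε : 0 < ε) : ∃ M₀ : ℕ,
    1 ≤ M₀ ∧ 6 ∣ M₀ ∧ ∀ lam : ℝ, 0 < lam → ∃ κ : ℝ, 0 < κ ∧ ∀ᶠ N : ℕ in atTop, ∀ T₁ : ℕ,
      lam * Real.log N ≤ T₁ → 2 * (M₀ * T₁) ≤ N → ∀ f : Fin m → ℤ × ℤ,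
      (∀ i, ∀ t ≤ T₁, Afm N (sh (f i) (M₀ * t))) →
      (∀ p : ℕ, p.Prime → p ∣ M₀ → ∃ r : ℤ, ∀ i, ¬ (p : ℤ) ∣ (f i).1 * r + (f i).2) →
      ∃ A : Fin m → Finset ℕ, (∀ i, A i ⊆ range T₁) ∧
        (5 / 18 - ε) * (m * T₁) ≤ ((∑ i, (A i).card : ℕ) : ℝ) ∧
        ∀ i j, (((A i ×ˢ A j).filter (fun x => (i, x.1) ≠ (j, x.2) ∧
          ¬ Gdf κ N ![sh (f i) (M₀ * x.1), sh (f j) (M₀ * x.2)])).card : ℝ) ≤ ε * (T₁ : ℝ) ^ 2 := by
  have hmR : (1 : ℝ) ≤ m := by exact_mod_cast hm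
  have hex : ∀ T : ℕ, ∃ M' K : ℕ, 1 ≤ T → (T : ℝ) ≤ (18 / 5) * ((M' + 1 : ℕ) : ℝ) ∧ 1 ≤ K ∧
    ∀ M₀ : ℕ, 1 ≤ M₀ → ∀ lam δ' : ℝ, 0 < lam → 0 < δ' →
      ∃ κ : ℝ, 0 < κ ∧ ∀ᶠ N : ℕ in atTop, ∀ T₁ : ℕ, lam * Real.log N ≤ T₁ → 2 * (M₀ * T₁) ≤ N →
      ∀ f : Fin T × Fin K → ℤ × ℤ, (∀ x, ∀ t ≤ T₁, Afm N (sh (f x) (M₀ * t))) →
      (∀ p : ℕ, p.Prime → p ≤ T * K → p ∣ M₀ ∧ ∃ r : ℤ, ∀ x, ¬ (p : ℤ) ∣ (f x).1 * r + (f x).2) →
      (((Fintype.piFinset (fun _ : Fin T × Fin K => range T₁)).filter (fun H =>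
        ¬ ∃ (S : Finset (Fin T)) (σ : Fin T → Fin K), M' + 1 ≤ S.card ∧
          ∀ g : Fin (1 + 1) → Fin T, Function.Injective g → (∀ i, g i ∈ S) →
            Gdf κ N (fun i => sh (f (g i, σ (g i))) (M₀ * H (g i, σ (g i)))))).card : ℝ) ≤
        δ' * (T₁ : ℝ) ^ (T * K) := by
    intro T
    by_cases hT : 1 ≤ T
    · obtain ⟨M', h1, h2⟩ := ceilM T hT
      obtain ⟨K, hK, h3⟩ := hH T M' hT h1
      exact ⟨M', K, fun _ => ⟨h2, hK, h3⟩⟩
    · exact ⟨0, 0, fun h => absurd h hT⟩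
  choose Mf Kf hf using hex
  set ε' : ℝ := ε / m ^ 2 with hε'
  have hε'0 : 0 < ε' := by positivity
  have hε'1 : ε' ≤ ε := by
    rw [hε', div_le_iff₀ (by positivity)]
    nlinarith [pow_le_pow_left₀ (by norm_num : (0:ℝ) ≤ 1) hmR 2]
  obtain ⟨M, n₀, δ', hδ', hWC'⟩ := hWC (18 / 5) (by norm_num) 1 ε' hε'0 Kf
  obtain ⟨M₀, hM₀1, h6, hdvd⟩ : ∃ M₀ : ℕ, 1 ≤ M₀ ∧ 6 ∣ M₀ ∧
      ∀ T', T' ≤ M → ∀ p : ℕ, p.Prime → p ≤ T' * Kf T' → p ∣ M₀ := by
    refine ⟨(∑ T' ∈ range (M + 1), T' * Kf T' + 3).factorial, Nat.factorial_pos _, ?_, ?_⟩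
    · exact Nat.factorial_dvd_factorial (m := 3) (Nat.le_add_left _ _)
    · intro T' hT' p hp hpT
      apply Nat.dvd_factorial hp.pos (hpT.trans _)
      refine (Finset.single_le_sum (f := fun T' => T' * Kf T') (fun _ _ => Nat.zero_le _)
        (mem_range.2 (by omega : T' < M + 1))).trans (Nat.le_add_right _ _)
  refine ⟨M₀, hM₀1, h6, fun lam hlam => ?_⟩
  have hκex : ∀ T' : ℕ, ∃ κ : ℝ, 0 < κ ∧ (1 ≤ T' → T' ≤ M → ∀ᶠ N : ℕ in atTop, ∀ T₁ : ℕ,
      lam * Real.log N ≤ T₁ → 2 * (M₀ * T₁) ≤ N →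
      ∀ f : Fin T' × Fin (Kf T') → ℤ × ℤ, (∀ x, ∀ t ≤ T₁, Afm N (sh (f x) (M₀ * t))) →
      (∀ p : ℕ, p.Prime → p ≤ T' * (Kf T') → p ∣ M₀ ∧
        ∃ r : ℤ, ∀ x, ¬ (p : ℤ) ∣ (f x).1 * r + (f x).2) →
      (((Fintype.piFinset (fun _ : Fin T' × Fin (Kf T') => range T₁)).filter (fun H =>
        ¬ ∃ (S : Finset (Fin T')) (σ : Fin T' → Fin (Kf T')), Mf T' + 1 ≤ S.card ∧
          ∀ g : Fin (1 + 1) → Fin T', Function.Injective g → (∀ i, g i ∈ S) →
            Gdf κ N (fun i => sh (f (g i, σ (g i))) (M₀ * H (g i, σ (g i)))))).card : ℝ) ≤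
        δ' * (T₁ : ℝ) ^ (T' * Kf T')) := by
    intro T'
    by_cases h : 1 ≤ T' ∧ T' ≤ M
    · obtain ⟨h1, h2⟩ := h
      obtain ⟨_, _, h3⟩ := hf T' h1
      obtain ⟨κ, hκ, h4⟩ := h3 M₀ hM₀1 lam δ' hlam hδ'
      exact ⟨κ, hκ, fun _ _ => h4⟩
    · exact ⟨1, one_pos, fun h1 h2 => absurd ⟨h1, h2⟩ h⟩
  choose κf hκf hκf' using hκex
  obtain ⟨κ, hκ, hκle⟩ := min_pos' κf hκf M
  refine ⟨κ, hκ, ?_⟩
  have hev : ∀ᶠ N : ℕ in atTop, ∀ T' ∈ Icc 1 M, ∀ T₁ : ℕ,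
      lam * Real.log N ≤ T₁ → 2 * (M₀ * T₁) ≤ N →
      ∀ f : Fin T' × Fin (Kf T') → ℤ × ℤ, (∀ x, ∀ t ≤ T₁, Afm N (sh (f x) (M₀ * t))) →
      (∀ p : ℕ, p.Prime → p ≤ T' * (Kf T') → p ∣ M₀ ∧
        ∃ r : ℤ, ∀ x, ¬ (p : ℤ) ∣ (f x).1 * r + (f x).2) →
      (((Fintype.piFinset (fun _ : Fin T' × Fin (Kf T') => range T₁)).filter (fun H =>
        ¬ ∃ (S : Finset (Fin T')) (σ : Fin T' → Fin (Kf T')), Mf T' + 1 ≤ S.card ∧
          ∀ g : Fin (1 + 1) → Fin T', Function.Injective g → (∀ i, g i ∈ S) →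
            Gdf (κf T') N (fun i => sh (f (g i, σ (g i))) (M₀ * H (g i, σ (g i)))))).card : ℝ) ≤
        δ' * (T₁ : ℝ) ^ (T' * Kf T') := by
    rw [Filter.eventually_all_finset]
    intro T' hT'
    obtain ⟨h1, h2⟩ := mem_Icc.1 hT'
    exact hκf' T' h1 h2
  have hlog : Tendsto (fun N : ℕ => lam * Real.log (N : ℝ)) atTop atTop :=
    (Real.tendsto_log_atTop.comp tendsto_natCast_atTop_atTop).const_mul_atTop hlam
  filter_upwards [hev, hlog.eventually_ge_atTop (n₀ : ℝ)]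
    with N hx hxn T₁ hT₁ hT₁x f hfA hfp
  have hn0T : n₀ ≤ T₁ := by
    have : (n₀ : ℝ) ≤ T₁ := hxn.trans hT₁
    exact_mod_cast this
  set V : Finset (Fin m × ℕ) := univ ×ˢ range T₁ with hV
  have hVc : V.card = m * T₁ := by
    rw [hV, card_product, card_univ, Fintype.card_fin, card_range]
  have hVcR : (V.card : ℝ) = m * T₁ := by rw [hVc]; push_cast; ring
  set fm : Fin m × ℕ → ℤ × ℤ := fun v => sh (f v.1) (M₀ * v.2) with hfm
  set G : Finset (Fin m × ℕ) → Prop := fun F' => ∀ v ∈ F', ∀ w ∈ F', v ≠ w →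
    Gdf κ N ![fm v, fm w] with hG
  have hGh : ∀ F F' : Finset (Fin m × ℕ), F' ⊆ F → G F → G F' := fun F F' hF hGF v hv w hw hvw =>
    hGF v (hF hv) w (hF hw) hvw
  have hHit : HitM (18 / 5) Kf M δ' V G := by
    refine hitM_of fun T' h1 h2 => ?_
    -- the configurations of a given type
    have hτ : ∀ τ : Fin T' × Fin (Kf T') → Fin m,
        (((Fintype.piFinset (fun _ : Fin T' × Fin (Kf T') => V)).filter (fun H =>
          (∀ x, (H x).1 = τ x) ∧ ¬ ∃ (S : Finset (Fin T')) (c : Fin T' → Fin (Kf T')),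
            (T' : ℝ) ≤ (18 / 5) * (S.card : ℝ) ∧ G (S.image (fun g => H (g, c g))))).card : ℝ) ≤
          δ' * (T₁ : ℝ) ^ (T' * Kf T') := by
      intro τ
      refine le_trans ?_ (hx T' (mem_Icc.2 ⟨h1, h2⟩) T₁ hT₁ hT₁x (fun x => f (τ x))
        (fun x t ht => hfA (τ x) t ht) (fun p hp hpT => ?_))
      · rw [Nat.cast_le]
        apply card_le_card_of_injOn (fun H x => (H x).2)
        · intro H hH'
          rw [mem_coe, mem_filter, Fintype.mem_piFinset] at hH'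
          rw [mem_coe, mem_filter, Fintype.mem_piFinset]
          refine ⟨fun x => ?_, ?_⟩
          · exact (mem_product.1 (hH'.1 x)).2
          rintro ⟨S, σ, hS, hF⟩
          apply hH'.2.2
          refine ⟨S, σ, ?_, ?_⟩
          · have h3 := (hf T' h1).1
            have h4 : ((Mf T' + 1 : ℕ) : ℝ) ≤ (S.card : ℝ) := by exact_mod_cast hS
            calc (T' : ℝ) ≤ (18 / 5) * ((Mf T' + 1 : ℕ) : ℝ) := h3
              _ ≤ 18 / 5 * (S.card : ℝ) := mul_le_mul_of_nonneg_left h4 (by norm_num)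
          · intro v hv w hw hvw
            obtain ⟨g, hg, rfl⟩ := mem_image.1 hv
            obtain ⟨g', hg', rfl⟩ := mem_image.1 hw
            have hgg : g ≠ g' := fun h => hvw (by rw [h])
            have h5 := hF ![g, g'] (inj2 hgg) (by
              intro i
              fin_cases i
              · exact hg
              · exact hg')
            apply Gdf_mono (hκle T' h2)
            have e0 : ![fm (H (g, σ g)), fm (H (g', σ g'))] =
                (fun i : Fin (1 + 1) => sh (f (τ (![g, g'] i, σ (![g, g'] i))))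
                  (M₀ * (H (![g, g'] i, σ (![g, g'] i))).2)) := by
              funext i
              fin_cases i
              · show sh (f (H (g, σ g)).1) _ = sh (f (τ (g, σ g))) _
                rw [hH'.2.1]
                rfl
              · show sh (f (H (g', σ g')).1) _ = sh (f (τ (g', σ g'))) _
                rw [hH'.2.1]
                rfl
            rw [e0]
            exact h5
        · intro H hH1 H' hH2 hHH
          rw [mem_coe, mem_filter] at hH1 hH2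
          funext x
          exact Prod.ext ((hH1.2.1 x).trans (hH2.2.1 x).symm) (congrFun hHH x)
      · refine ⟨hdvd T' h2 p hp hpT, ?_⟩
        obtain ⟨r, hr⟩ := hfp p hp (hdvd T' h2 p hp hpT)
        exact ⟨r, fun x => hr (τ x)⟩
    set Bs : (Fin T' × Fin (Kf T') → Fin m) → Finset (Fin T' × Fin (Kf T') → Fin m × ℕ) := fun τ =>
          (Fintype.piFinset (fun _ : Fin T' × Fin (Kf T') => V)).filter (fun H =>
          (∀ x, (H x).1 = τ x) ∧ ¬ ∃ (S : Finset (Fin T')) (c : Fin T' → Fin (Kf T')),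
            (T' : ℝ) ≤ (18 / 5) * (S.card : ℝ) ∧ G (S.image (fun g => H (g, c g)))) with hBs
    have hc : (((univ : Finset (Fin T' × Fin (Kf T') → Fin m)).biUnion Bs).card : ℝ) ≤
        δ' * (V.card : ℝ) ^ (T' * Kf T') := by
      have h4 : (((univ : Finset (Fin T' × Fin (Kf T') → Fin m)).biUnion Bs).card : ℝ) ≤
        ∑ τ : Fin T' × Fin (Kf T') → Fin m, ((Bs τ).card : ℝ) := by
        exact_mod_cast card_biUnion_le
      refine h4.trans ((sum_le_sum fun τ _ => hτ τ).trans (le_of_eq ?_))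
      rw [hVcR]
      exact sumc T' (Kf T') m δ' T₁
    refine ⟨_, hc, fun H hH1 hH2 => ?_⟩
    rw [mem_biUnion]
    refine ⟨fun x => (H x).1, mem_univ _, ?_⟩
    rw [hBs]
    exact mem_filter.2 ⟨Fintype.mem_piFinset.2 hH1, fun _ => rfl, hH2⟩
  have hn0V : n₀ ≤ V.card := by
    rw [hVc]
    exact hn0T.trans (Nat.le_mul_of_pos_left _ hm)
  obtain ⟨A, hA1, hA2, hA3⟩ := hWC' (Fin m × ℕ) V G hn0V hGh hHit
  rw [hVcR] at hA2 hA3
  refine ⟨fun i => (range T₁).filter (fun y => (i, y) ∈ A), fun i => filter_subset _ _, ?_, ?_⟩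
  · have hAc : A.card = ∑ i : Fin m, ((range T₁).filter (fun y => (i, y) ∈ A)).card := by
      rw [card_eq_sum_card_fiberwise (f := Prod.fst) (t := univ) (fun _ _ => mem_univ _)]
      refine sum_congr rfl fun i _ => ?_
      refine card_bij' (fun v _ => v.2) (fun y _ => (i, y)) ?_ ?_ ?_ ?_
      · intro v hv
        rw [mem_filter] at hv
        have h3 := (mem_product.1 (hA1 hv.1)).2
        rw [mem_filter]
        refine ⟨h3, ?_⟩
        rw [← hv.2]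
        exact hv.1
      · intro y hy
        rw [mem_filter] at hy
        rw [mem_filter]
        exact ⟨hy.2, rfl⟩
      · intro v hv
        exact Prod.ext (mem_filter.1 hv).2.symm rfl
      · intro y _
        rfl
    rw [← hAc]
    refine le_trans ?_ hA2
    apply mul_le_mul_of_nonneg_right _ (by positivity)
    norm_num
    linarith
  · intro i j
    have h3 : (((((range T₁).filter (fun y => (i, y) ∈ A)) ×ˢ
        ((range T₁).filter (fun y => (j, y) ∈ A))).filter (fun x => (i, x.1) ≠ (j, x.2) ∧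
          ¬ Gdf κ N ![sh (f i) (M₀ * x.1), sh (f j) (M₀ * x.2)])).card : ℝ) ≤
        ((badU 1 A G).card : ℝ) := by
      rw [Nat.cast_le]
      apply card_le_card_of_injOn (fun x => ![(i, x.1), (j, x.2)])
      · intro x hx'
        rw [mem_coe, mem_filter, mem_product, mem_filter, mem_filter] at hx'
        obtain ⟨⟨⟨hx1, hx2⟩, hx3, hx4⟩, hx5, hx6⟩ := hx'
        rw [mem_coe]
        refine mem_badU 1 A G _ (fun q => ?_) ?_ (fun hGG => hx6 ?_)
        · fin_cases q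
          · exact hx2
          · exact hx4
        · exact inj2 hx5
        · have h4 := hGG (i, x.1) (mem_image.2 ⟨0, mem_univ _, rfl⟩) (j, x.2)
            (mem_image.2 ⟨1, mem_univ _, rfl⟩) hx5
          exact h4
      · intro x _ x' _ hxx
        have e0 := congrFun hxx 0
        have e1 := congrFun hxx 1
        simp only [Matrix.cons_val_zero, Matrix.cons_val_one, Prod.mk.injEq, true_and] at e0 e1
        exact Prod.ext e0 e1
    refine h3.trans (hA3.trans (le_of_eq ?_))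
    rw [hε']
    have : (m : ℝ) ≠ 0 := by positivity
    field_simp
    ring

end Pool.Agent.K6.H45.RT
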