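import Pool.Agent.K6.H45.RT.Stm

/-!
# Project RG, part E22 (helper434), after `Pool.Agent.N738.RQ_E2` (helper738)
-/

set_option autoImplicit false

namespace Pool.Agent.K6.H45.RT.E22

open Finset Filter Topology Pool.Agent.N646.RO Pool.Agent.K6.H45.RT

/-- number of extensions -/
theorem ext_count {I : Type} [Fintype I] [DecidableEq I] {k : ℕ} (π : Fin (k + 1) → I)
    (A : I → Finset ℕ) (F : Fin (k + 1) → ℕ) :
    ((Fintype.piFinset A).filter (fun H => (fun i => H (π i)) = F)).card ≤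
      ∏ x ∈ univ \ univ.image π, (A x).card := by
  classical
  set J : Finset I := univ \ univ.image π with hJ
  have hcard : (Fintype.piFinset (fun x : J => A x.1)).card = ∏ x ∈ J, (A x).card := by
    rw [Fintype.card_piFinset, ← prod_coe_sort J (fun x => (A x).card)]
  rw [← hcard]
  refine card_le_card_of_injOn (fun H => fun x : J => H x.1) ?_ ?_
  · intro H hH
    rw [mem_coe, mem_filter, Fintype.mem_piFinset] at hH
    rw [mem_coe, Fintype.mem_piFinset]
    exact fun x => hH.1 x.1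
  · intro H hH H' hH' h
    rw [mem_coe, mem_filter, Fintype.mem_piFinset] at hH hH'
    funext x
    by_cases hx : x ∈ univ.image π
    · obtain ⟨i, _, rfl⟩ := mem_image.mp hx
      exact (congrFun hH.2 i).trans (congrFun hH'.2 i).symm
    · exact congrFun h ⟨x, mem_sdiff.mpr ⟨mem_univ _, hx⟩⟩

lemma sqrt_aux (q p : ℝ) (hq : 0 ≤ q) (hp : 0 ≤ p) : Real.sqrt q * Real.sqrt (q * p ^ 2) = p * q := by
  rw [← Real.sqrt_mul hq]
  have : q * (q * p ^ 2) = (p * q) ^ 2 := by ring
  rw [this, Real.sqrt_sq (mul_nonneg hp hq)]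

open Classical in
theorem main (hW : Pool.Agent.K6.H45.RT.S_WB2) (k : ℕ) : Pool.Agent.K6.H45.RT.S_E22 k := by
  intro T K M₀ δ lam hδ hlam hM₀
  set m := T * K - (k + 1) with hm
  obtain ⟨C, hC, hev⟩ := hW δ lam M₀ (k + 1 + 2 * m) hδ hlam hM₀
  have hC2 : 0 < ((T * K : ℕ) : ℝ) * C + C := by positivity
  refine ⟨Real.sqrt (((T * K : ℕ) : ℝ) * C + C), Real.sqrt_pos.mpr hC2, ?_⟩
  filter_upwards [hev, eventually_ge_atTop 18] with N hN hN18
  intro T₁ hT₁ hMT f hf κ hκ hκ1 π hπ
  have hTK : k + 1 ≤ T * K := by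
    have := Fintype.card_le_of_injective π hπ
    simpa using this
  have hmk : k + 1 + m = T * K := by omega
  have hlog : 0 < Real.log N := Real.log_pos (by exact_mod_cast (by omega : 1 < N))
  set J : Finset (Fin T × Fin K) := univ \ univ.image π with hJ
  have hJc : J.card = m := by
    rw [hJ, card_sdiff_of_subset (subset_univ _), card_image_of_injective _ hπ, card_univ,
      card_univ, Fintype.card_fin]
    simp [hm]
  set A : Fin T × Fin K → ℕ → Finset ℕ := fun x n =>
    (range T₁).filter (fun t : ℕ => Rgh δ N (ev (sh (f x) (M₀ * t)) n)) with hA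
  set Q : ℕ → Finset (Fin (k + 1) → ℕ) := fun n =>
    (Fintype.piFinset (fun _ : Fin (k + 1) => range T₁)).filter
      (fun F => ¬ Gdf κ N (fun i => sh (f (π i)) (M₀ * F i)) ∧
      (∀ i, (ev (sh (f (π i)) (M₀ * F i)) n).toNat.Prime) ∧ ∀ i, F i ∈ A (π i) n) with hQ
  set NN := IN N with hNN
  -- exchange of the sums
  have h1 : ∑ H ∈ (Fintype.piFinset (fun _ : Fin T × Fin K => range T₁)).filter
        (fun H => ¬ Gdf κ N (fun i => sh (f (π i)) (M₀ * H (π i)))),
      ((NN.filter (fun n : ℕ => (∀ x, Rgh δ N (ev (sh (f x) (M₀ * H x)) n)) ∧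
        ∀ i, (ev (sh (f (π i)) (M₀ * H (π i))) n).toNat.Prime)).card : ℝ) =
      ∑ n ∈ NN, ((((Fintype.piFinset (fun _ : Fin T × Fin K => range T₁)).filter
        (fun H => ¬ Gdf κ N (fun i => sh (f (π i)) (M₀ * H (π i))))).filter
        (fun H => (∀ x, Rgh δ N (ev (sh (f x) (M₀ * H x)) n)) ∧
        ∀ i, (ev (sh (f (π i)) (M₀ * H (π i))) n).toNat.Prime)).card : ℝ) := by
    simp only [card_filter, Nat.cast_sum]
    rw [sum_comm]
  rw [h1]
  -- the bound for one n
  have h2 : ∀ n ∈ NN, ((((Fintype.piFinset (fun _ : Fin T × Fin K => range T₁)).filter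
        (fun H => ¬ Gdf κ N (fun i => sh (f (π i)) (M₀ * H (π i))))).filter
        (fun H => (∀ x, Rgh δ N (ev (sh (f x) (M₀ * H x)) n)) ∧
        ∀ i, (ev (sh (f (π i)) (M₀ * H (π i))) n).toNat.Prime)).card : ℝ) ≤
      Real.sqrt ((Q n).card : ℝ) *
        Real.sqrt (((Q n).card : ℝ) * (∏ x ∈ J, ((A x n).card : ℝ)) ^ 2) := by
    intro n _
    have h3 : (((Fintype.piFinset (fun _ : Fin T × Fin K => range T₁)).filter
        (fun H => ¬ Gdf κ N (fun i => sh (f (π i)) (M₀ * H (π i))))).filter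
        (fun H => (∀ x, Rgh δ N (ev (sh (f x) (M₀ * H x)) n)) ∧
        ∀ i, (ev (sh (f (π i)) (M₀ * H (π i))) n).toNat.Prime)).card ≤
        (∏ x ∈ J, (A x n).card) * (Q n).card := by
      refine (card_le_mul_card_image (f := fun H => fun i => H (π i)) _ (∏ x ∈ J, (A x n).card)
        ?_).trans (Nat.mul_le_mul_left _ (card_le_card ?_))
      · intro F _
        have h4 := ext_count π (fun x => A x n) F
        refine le_trans (card_le_card ?_) h4
        intro H hH
        have g1 := mem_filter.1 hH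
        have g2 := mem_filter.1 g1.1
        have g3 := mem_filter.1 g2.1
        have g4 := Fintype.mem_piFinset.1 g3.1
        refine mem_filter.2 ⟨Fintype.mem_piFinset.2 fun x => ?_, g1.2⟩
        exact mem_filter.mpr ⟨g4 x, g2.2.1 x⟩
      · intro F hF
        obtain ⟨H, hH, rfl⟩ := mem_image.mp hF
        have g1 := mem_filter.1 hH
        have g2 := mem_filter.1 g1.1
        have g3 := Fintype.mem_piFinset.1 g2.1
        refine mem_filter.mpr ⟨Fintype.mem_piFinset.mpr fun i => g3 _, g2.2, g1.2.2,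
          fun i => ?_⟩
        exact mem_filter.mpr ⟨g3 _, g1.2.1 _⟩
    have h6 : Real.sqrt ((Q n).card : ℝ) *
        Real.sqrt (((Q n).card : ℝ) * (∏ x ∈ J, ((A x n).card : ℝ)) ^ 2)
        = (∏ x ∈ J, ((A x n).card : ℝ)) * (Q n).card :=
      sqrt_aux _ _ (Nat.cast_nonneg _) (prod_nonneg fun _ _ => Nat.cast_nonneg _)
    rw [h6]
    exact_mod_cast h3
  refine (sum_le_sum h2).trans ?_
  refine (Real.sum_sqrt_mul_sqrt_le _ (fun n => Nat.cast_nonneg _)
    (fun n => mul_nonneg (Nat.cast_nonneg _) (sq_nonneg _))).trans ?_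
  -- the first factor
  have h7 : ∑ n ∈ NN, ((Q n).card : ℝ) ≤
      (T₁ : ℝ) ^ (k + 1) * (κ * (N / (Real.log N) ^ (k + 1))) := by
    have h8 : ∑ n ∈ NN, ((Q n).card : ℝ) ≤
        ∑ F ∈ (Fintype.piFinset (fun _ : Fin (k + 1) => range T₁)).filter
          (fun F => ¬ Gdf κ N (fun i => sh (f (π i)) (M₀ * F i))),
          ((NN.filter (fun n : ℕ => ∀ i, (ev (sh (f (π i)) (M₀ * F i)) n).toNat.Prime)).card : ℝ) := by
      have h9 : ∀ n ∈ NN, ((Q n).card : ℝ) ≤
          ((((Fintype.piFinset (fun _ : Fin (k + 1) => range T₁)).filter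
          (fun F => ¬ Gdf κ N (fun i => sh (f (π i)) (M₀ * F i)))).filter
            (fun F => ∀ i, (ev (sh (f (π i)) (M₀ * F i)) n).toNat.Prime)).card : ℝ) := by
        intro n _
        have : (Q n).card ≤ (((Fintype.piFinset (fun _ : Fin (k + 1) => range T₁)).filter
          (fun F => ¬ Gdf κ N (fun i => sh (f (π i)) (M₀ * F i)))).filter
            (fun F => ∀ i, (ev (sh (f (π i)) (M₀ * F i)) n).toNat.Prime)).card := by
          refine card_le_card fun F hF => ?_
          rw [hQ] at hF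
          have hF' := mem_filter.mp hF
          exact mem_filter.mpr ⟨mem_filter.mpr ⟨hF'.1, hF'.2.1⟩, hF'.2.2.1⟩
        exact_mod_cast this
      refine (sum_le_sum h9).trans ?_
      simp only [card_filter, Nat.cast_sum]
      rw [sum_comm]
    refine h8.trans ?_
    have h10 : ∀ F ∈ (Fintype.piFinset (fun _ : Fin (k + 1) => range T₁)).filter
          (fun F => ¬ Gdf κ N (fun i => sh (f (π i)) (M₀ * F i))),
          ((NN.filter (fun n : ℕ => ∀ i, (ev (sh (f (π i)) (M₀ * F i)) n).toNat.Prime)).card : ℝ) ≤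
          κ * (N / (Real.log N) ^ (k + 1)) := by
      intro F hF
      have := (mem_filter.mp hF).2
      unfold Gdf at this
      exact (not_le.mp this).le
    refine (sum_le_card_nsmul _ _ _ h10).trans ?_
    rw [nsmul_eq_mul]
    refine mul_le_mul_of_nonneg_right ?_ (by positivity)
    have h11 : ((Fintype.piFinset (fun _ : Fin (k + 1) => range T₁)).filter
          (fun F => ¬ Gdf κ N (fun i => sh (f (π i)) (M₀ * F i)))).card ≤ T₁ ^ (k + 1) := by
      refine (card_filter_le _ _).trans ?_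
      rw [Fintype.card_piFinset_const]
      simp
    exact_mod_cast h11
  -- the second factor
  have h12 : ∑ n ∈ NN, ((Q n).card : ℝ) * (∏ x ∈ J, ((A x n).card : ℝ)) ^ 2 ≤
      (((T * K : ℕ) : ℝ) * C + C) * N * (T₁ / Real.log N) ^ (k + 1 + 2 * m) := by
    have h20 : ∀ n ∈ NN, ((Q n).card : ℝ) * (∏ x ∈ J, ((A x n).card : ℝ)) ^ 2 ≤
        ∑ x : Fin T × Fin K, ((A x n).card : ℝ) ^ (k + 1 + 2 * m) := by
      intro n _
      obtain ⟨x0, -, hx0⟩ := exists_max_image (univ : Finset (Fin T × Fin K)) (fun x => (A x n).card)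
        ⟨π 0, mem_univ _⟩
      have h13 : (Q n).card ≤ (A x0 n).card ^ (k + 1) := by
        have h14 : (Q n).card ≤ (Fintype.piFinset (fun i : Fin (k + 1) => A (π i) n)).card := by
          refine card_le_card fun F hF => ?_
          rw [hQ] at hF
          have hF' := mem_filter.mp hF
          exact Fintype.mem_piFinset.mpr hF'.2.2.2
        rw [Fintype.card_piFinset] at h14
        refine h14.trans ?_
        calc ∏ i : Fin (k + 1), (A (π i) n).card ≤ ∏ _i : Fin (k + 1), (A x0 n).card :=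
              prod_le_prod' fun i _ => hx0 (π i) (mem_univ _)
          _ = _ := by rw [prod_const, card_univ, Fintype.card_fin]
      have h15 : ((Q n).card : ℝ) ≤ ((A x0 n).card : ℝ) ^ (k + 1) := by exact_mod_cast h13
      have h16 : ∏ x ∈ J, ((A x n).card : ℝ) ≤ ((A x0 n).card : ℝ) ^ m := by
        calc ∏ x ∈ J, ((A x n).card : ℝ) ≤ ∏ _x ∈ J, ((A x0 n).card : ℝ) :=
              prod_le_prod (fun _ _ => Nat.cast_nonneg _) fun x _ => by exact_mod_cast hx0 x (mem_univ _)
          _ = _ := by rw [prod_const, hJc]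
      calc ((Q n).card : ℝ) * (∏ x ∈ J, ((A x n).card : ℝ)) ^ 2 ≤
            ((A x0 n).card : ℝ) ^ (k + 1) * (((A x0 n).card : ℝ) ^ m) ^ 2 :=
            mul_le_mul h15 (pow_le_pow_left₀ (prod_nonneg fun _ _ => Nat.cast_nonneg _) h16 2)
              (sq_nonneg _) (pow_nonneg (Nat.cast_nonneg _) _)
        _ = ((A x0 n).card : ℝ) ^ (k + 1 + 2 * m) := by
            rw [pow_add _ (k + 1), ← pow_mul, mul_comm m 2]
        _ ≤ _ := single_le_sum (f := fun x => ((A x n).card : ℝ) ^ (k + 1 + 2 * m))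
            (fun x _ => pow_nonneg (Nat.cast_nonneg _) _) (mem_univ x0)
    refine (sum_le_sum h20).trans ?_
    rw [sum_comm]
    have h21 : ∀ x ∈ (univ : Finset (Fin T × Fin K)), ∑ n ∈ NN, ((A x n).card : ℝ) ^ (k + 1 + 2 * m) ≤
        C * N * (T₁ / Real.log N) ^ (k + 1 + 2 * m) := fun x _ => hN T₁ hT₁ hMT (f x) (hf x)
    refine (sum_le_sum h21).trans ?_
    rw [sum_const, nsmul_eq_mul, card_univ, Fintype.card_prod, Fintype.card_fin, Fintype.card_fin]
    have h22 : 0 ≤ C * N * (T₁ / Real.log N) ^ (k + 1 + 2 * m) := by positivity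
    calc _ ≤ ((T * K : ℕ) : ℝ) * (C * N * (T₁ / Real.log N) ^ (k + 1 + 2 * m)) +
          C * N * (T₁ / Real.log N) ^ (k + 1 + 2 * m) := by linarith
      _ = _ := by ring
  refine (mul_le_mul (Real.sqrt_le_sqrt h7) (Real.sqrt_le_sqrt h12) (Real.sqrt_nonneg _)
    (Real.sqrt_nonneg _)).trans (le_of_eq ?_)
  rw [← Real.sqrt_mul (by positivity)]
  obtain ⟨C', hC'⟩ : ∃ C' : ℝ, C' = ((T * K : ℕ) : ℝ) * C + C := ⟨_, rfl⟩
  rw [← hC'] at hC2 ⊢
  have h16 : (T₁ : ℝ) ^ (k + 1) * (κ * (N / (Real.log N) ^ (k + 1))) *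
      (C' * N * (T₁ / Real.log N) ^ (k + 1 + 2 * m)) =
      (C' * κ) * (N * (T₁ / Real.log N) ^ (T * K)) ^ 2 := by
    rw [← hmk, mul_pow, ← pow_mul]
    have e : (k + 1 + m) * 2 = (k + 1) + (k + 1 + 2 * m) := by ring
    rw [e, pow_add _ (k + 1) (k + 1 + 2 * m), div_pow _ _ (k + 1)]
    field_simp
  rw [h16, Real.sqrt_mul (by positivity), Real.sqrt_sq (by positivity), Real.sqrt_mul hC2.le]
  ring

end Pool.Agent.K6.H45.RT.E22
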