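import Mathlib
import Pool.Agent.Y827.GS.FamF
import Pool.Agent.Y827.RO.FinalR

/-! The coloured theorem with the constant `18 / 5` for primitive linear forms, with the
right order of magnitude and without small prime factors (after `Pool.Agent.N646.RG.Lam`, with larger
constant terms). -/

set_option autoImplicit false

namespace Pool.Agent.K6.H45.RT.Lam

open Finset Filter Topology
open Pool.Agent.W25.UN
open Pool.Agent.W25.UB (CopAt)
open Pool.Agent.H410R2 (WW)
open Pool.Agent.TH899.UG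
open Pool.Agent.TH899.UG.Uni
open Pool.Agent.Y827.LS
open Pool.Agent.Y827.GS
open Pool.Agent.Y827.RO

/-- the linear form `f.1 * n + f.2`: primitive, slope at most `A`, constant term at most `5 N / 4`, values
at least `N / 24` on `[N / 16, N / 2]` -/
def Adg (A N : ℕ) (f : ℤ × ℤ) : Prop :=
  f.1 ≠ 0 ∧ |f.1| ≤ A ∧ 4 * |f.2| ≤ 5 * N ∧ IsCoprime f.1 f.2 ∧
    ∀ t : ℝ, (N : ℝ) / 16 ≤ t → t ≤ N / 2 → (N : ℝ) / 24 ≤ f.1 * t + f.2

/-- two different forms are not proportional -/
theorem Adg.np {A N : ℕ} (hN : 1 ≤ N) {f g : ℤ × ℤ} (hf : Adg A N f) (hg : Adg A N g)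
    (h : f ≠ g) : f.1 * g.2 ≠ g.1 * f.2 := by
  intro he
  have h1 : f.1 ∣ g.1 := hf.2.2.2.1.dvd_of_dvd_mul_right (by rw [← he]; exact dvd_mul_right _ _)
  have h2 : g.1 ∣ f.1 := hg.2.2.2.1.dvd_of_dvd_mul_right (by rw [he]; exact dvd_mul_right _ _)
  have h3 : f.1.natAbs = g.1.natAbs :=
    Nat.dvd_antisymm (Int.natAbs_dvd_natAbs.2 h1) (Int.natAbs_dvd_natAbs.2 h2)
  rcases Int.natAbs_eq_natAbs_iff.1 h3 with h4 | h4
  · apply h
    refine Prod.ext h4 ?_
    rw [← h4] at he
    exact (mul_left_cancel₀ hf.1 he).symm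
  · have h5 : g.2 = -f.2 := by
      rw [h4] at he
      have h6 : g.1 * (g.2 + f.2) = 0 := by linarith
      rcases mul_eq_zero.1 h6 with h7 | h7
      · exact absurd h7 hg.1
      · linarith
    have hNr : (1 : ℝ) ≤ N := by exact_mod_cast hN
    have k1 := hf.2.2.2.2 (N / 16) le_rfl (by linarith)
    have k2 := hg.2.2.2.2 (N / 16) le_rfl (by linarith)
    rw [h5] at k2
    rw [h4] at k1
    push_cast at k1 k2
    linarith

open Classical in
/-- the `n ≤ N` at which all the forms `H g i`, and `n - s`, are free of primes `≤ N ^ δ` and the forms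
`H g (σ g)`, `g ∈ S`, are prime -/
noncomputable def Rs' {T K : ℕ} (H : Fin T → Fin K → ℤ × ℤ) (δ : ℝ) (s : ℕ) (S : Finset (Fin T))
    (σ : Fin T → Fin K) (N : ℕ) : Finset ℕ :=
  (Icc 1 N).filter (fun n : ℕ => (N : ℝ) / 16 ≤ n ∧ (n : ℝ) ≤ N / 2 + s ∧
    (∀ p : ℕ, p.Prime → Real.log p ≤ δ * Real.log N → ¬ (p : ℤ) ∣ (n : ℤ) - s) ∧
    (∀ g i, ∀ p : ℕ, p.Prime → Real.log p ≤ δ * Real.log N →
      ¬ (p : ℤ) ∣ (H g i).1 * n + (H g i).2) ∧
    ∀ g ∈ S, ((H g (σ g)).1 * (n : ℤ) + (H g (σ g)).2).toNat.Prime)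

open Classical in
/-- **the coloured theorem for families of linear forms, uniformly, right order** -/
theorem lamR1 (T M : ℕ) (hT : 1 ≤ T) (hTM : (18 / 5 : ℝ) * M < T) : ∃ K : ℕ, 1 ≤ K ∧ ∃ δ : ℝ,
    0 < δ ∧ ∀ (A : ℕ), ∃ (s₀ : ℕ) (c : ℝ), 0 < c ∧ ∀ᶠ N : ℕ in atTop,
    ∀ H : Fin T → Fin K → ℤ × ℤ,
    Function.Injective (fun x : Fin T × Fin K => H x.1 x.2) → (∀ g i, Adg A N (H g i)) →
    (∀ p : ℕ, p.Prime → p ≤ T * K → ∃ r : ℤ, ∀ g i, ¬ (p : ℤ) ∣ (H g i).1 * r + (H g i).2) →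
    ∃ (s : ℕ) (S : Finset (Fin T)) (σ : Fin T → Fin K), s ≤ s₀ ∧
      (∀ g i, (H g i).2 + (H g i).1 * s ≠ 0) ∧
      (∀ p : ℕ, p.Prime → ∃ r : ℤ, ¬ (p : ℤ) ∣ r - s ∧
        ∀ g i, ¬ (p : ℤ) ∣ (H g i).1 * r + (H g i).2) ∧ M + 1 ≤ S.card ∧
      c * (N / (Real.log N) ^ (T * K + 1)) ≤ ((Rs' H δ s S σ N).card : ℝ) := by
  obtain ⟨K, hK, δ, hδ, D₀, H⟩ := thmR T M hT hTM
  refine ⟨K, by omega, δ / 2, by positivity, ?_⟩
  intro A
  set D : ℕ := D₀ + A + (T * K + 1) with hD
  obtain ⟨c, hc, H⟩ := H D (by omega)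
  set k : ℕ := T * K with hk
  have : NeZero K := ⟨by omega⟩
  have hW : 0 < WW D := by
    rw [WW]; exact prod_pos fun p hp => (mem_filter.1 hp).2.pos
  have h2 : ∀ᶠ N : ℕ in atTop, ∀ a ∈ (Fintype.piFinset (fun _ : Fin (T * K) =>
      Icc (-(A : ℤ)) A)).filter (fun a => ∀ i, a i ≠ 0), ∀ (h : Fin (T * K) → ℤ) (Mo : ℕ),
      HB h Mo N → Nd a h Mo → PosR a h Mo N → ∀ v : ℕ, CopAt a h D Mo v →
      c * (N / (Real.log N) ^ (T * K + 1)) ≤
      (((Icc 1 N).filter (fun n : ℕ => n ≡ v [MOD (WW D)] ∧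
        (N : ℝ) / 16 ≤ n ∧ (n : ℝ) ≤ N / 2 ∧
        (∀ p : ℕ, p.Prime → Real.log p ≤ δ * Real.log N → ∀ q,
          ¬ p ∣ LZ (uB a) (wB h Mo) q n) ∧
        M + 1 ≤ (univ.filter (fun g : Fin T => ∃ i, cl i = g ∧
          (Fm a h Mo i n).toNat.Prime)).card)).card : ℝ) := by
    rw [Filter.eventually_all_finset]
    intro a ha
    obtain ⟨ha1, ha2⟩ := mem_filter.1 ha
    rw [Fintype.mem_piFinset] at ha1
    refine H a cl Pool.Agent.TH899.UG.Uni.card_cl (fun _ => trivial) (fun i => ha2 _)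
      (fun i => ?_)
    have h3 := mem_Icc.1 (ha1 i)
    omega
  set P : ℕ := 2 ^ T * K ^ T with hP
  have hP0 : 0 < P := by rw [hP]; positivity
  refine ⟨WW D * (k + 3), c / P, by positivity, ?_⟩
  filter_upwards [h2, eventually_ge_atTop (100 * (A * (WW D * (k + 3)) + WW D * (k + 3))),
    eventually_ge_atTop 3] with N hN2 hN4 hN3 f hinj hAd hloc
  have hN1 : 1 ≤ N := by omega
  have hlogN : 0 < Real.log N := Real.log_pos (by exact_mod_cast (by omega : 1 < N))
  have hNpos : (0 : ℝ) < N := by exact_mod_cast hN1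
  -- the shift
  obtain ⟨s, hs1, hs2, hs3⟩ := crtF D (fun i : Fin (T * K) => f (cl i) (sx i))
    (fun i => (hAd _ _).2.2.2.1) (fun i => (hAd _ _).1) (by
      intro p hp hpk
      obtain ⟨r, hr⟩ := hloc p hp hpk
      exact ⟨r, fun i => hr _ _⟩)
  set a : Fin (T * K) → ℤ := fun i => (f (cl i) (sx i)).1 with ha
  set h : Fin (T * K) → ℤ := fun i => (f (cl i) (sx i)).2 + (f (cl i) (sx i)).1 * s with hh
  have hAs : A * s + s ≤ A * (WW D * (k + 3)) + WW D * (k + 3) :=
    Nat.add_le_add (Nat.mul_le_mul_left _ hs1) hs1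
  have hAsN : 100 * (A * s + s) ≤ N := (Nat.mul_le_mul_left 100 hAs).trans hN4
  have hAsN' : 100 * ((A : ℤ) * s + s) ≤ N := by exact_mod_cast hAsN
  have has : ∀ i, |(f (cl i) (sx i)).1 * (s : ℤ)| ≤ (A : ℤ) * s := by
    intro i
    rw [abs_mul, abs_of_nonneg (Nat.cast_nonneg s : (0 : ℤ) ≤ (s : ℤ))]
    exact mul_le_mul_of_nonneg_right (hAd _ _).2.1 (Nat.cast_nonneg s)
  have hHB : HB h 0 N := by
    intro i
    have e1 := (hAd (cl i) (sx i)).2.2.1
    have e2 := has i
    have e3 : |((0 : ℕ) : ℤ) + h i| ≤ |(f (cl i) (sx i)).2| + |(f (cl i) (sx i)).1 * (s : ℤ)| := by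
      rw [Nat.cast_zero, zero_add, hh]
      exact abs_add_le _ _
    have e4 : (0 : ℤ) ≤ s := Nat.cast_nonneg s
    linarith
  have hNd : Nd a h 0 := by
    intro j l hjl
    rcases j with _ | j <;> rcases l with _ | l
    · exact absurd rfl hjl
    · simp only [uB, wB]
      have := hs2 l
      intro h0
      apply this
      have h5 : h l = 0 := by push_cast at h0; linarith
      exact h5
    · simp only [uB, wB]
      have := hs2 j
      intro h0
      apply this
      have h5 : h j = 0 := by push_cast at h0; linarith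
      exact h5
    · have hne : j ≠ l := fun h => hjl (by rw [h])
      simp only [uB, wB]
      have hfne : f (cl j) (sx j) ≠ f (cl l) (sx l) := by
        intro h5
        apply hne
        have h6 := hinj (a₁ := (cl j, sx j)) (a₂ := (cl l, sx l)) h5
        have h7 := Prod.ext_iff.1 h6
        rw [← ix_cl j, ← ix_cl l]
        simp only at h7
        rw [h7.1, h7.2]
      have := (hAd (cl j) (sx j)).np hN1 (hAd (cl l) (sx l)) hfne
      intro h0
      apply this
      push_cast at h0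
      simp only [ha, hh] at h0
      linarith
  have hPR : PosR a h 0 N := by
    intro i x hx1 hx2
    have h5 := (hAd (cl i) (sx i)).2.2.2.2 x hx1 hx2
    have h6 := (abs_le.1 (has i)).1
    have h7 : (-((A : ℝ) * s) : ℝ) ≤ (f (cl i) (sx i)).1 * (s : ℝ) := by
      have : ((-((A : ℤ) * s) : ℤ) : ℝ) ≤ (((f (cl i) (sx i)).1 * (s : ℤ) : ℤ) : ℝ) := by
        exact_mod_cast h6
      push_cast at this
      exact this
    have h8 : 100 * ((A : ℝ) * s + s) ≤ N := by exact_mod_cast hAsN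
    have h9 : (0 : ℝ) ≤ s := Nat.cast_nonneg s
    simp only [ha, hh]
    push_cast
    linarith
  have hmem : a ∈ (Fintype.piFinset (fun _ : Fin (T * K) => Icc (-(A : ℤ)) A)).filter
      (fun a => ∀ i, a i ≠ 0) := by
    rw [mem_filter, Fintype.mem_piFinset]
    exact ⟨fun i => mem_Icc.2 (abs_le.1 (hAd _ _).2.1), fun i => (hAd _ _).1⟩
  have hmain := hN2 a hmem h 0 hHB hNd hPR 1 hs3
  -- pigeonhole
  set Q : Finset (Finset (Fin T) × (Fin T → Fin K)) := univ.filter (fun q => M + 1 ≤ q.1.card)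
    with hQ
  set B : Finset (Fin T) × (Fin T → Fin K) → Finset ℕ := fun q => (Icc 1 N).filter (fun n : ℕ =>
    (N : ℝ) / 16 ≤ n ∧ (n : ℝ) ≤ N / 2 ∧ (∀ p : ℕ, p.Prime → Real.log p ≤ δ * Real.log N → ∀ q,
          ¬ p ∣ LZ (uB a) (wB h 0) q n) ∧
    ∀ g ∈ q.1, (Fm a h 0 (ix g (q.2 g)) n).toNat.Prime) with hB
  have hsub : (Icc 1 N).filter (fun n : ℕ => n ≡ 1 [MOD (WW D)] ∧
        (N : ℝ) / 16 ≤ n ∧ (n : ℝ) ≤ N / 2 ∧
        (∀ p : ℕ, p.Prime → Real.log p ≤ δ * Real.log N → ∀ q,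
          ¬ p ∣ LZ (uB a) (wB h 0) q n) ∧
        M + 1 ≤ (univ.filter (fun g : Fin T => ∃ i, cl i = g ∧
          (Fm a h 0 i n).toNat.Prime)).card) ⊆ Q.biUnion B := by
    intro n hn
    rw [mem_filter] at hn
    obtain ⟨hn1, -, hn3, hn4, hn6, hn5⟩ := hn
    set S : Finset (Fin T) := univ.filter (fun g : Fin T => ∃ i, cl i = g ∧
          (Fm a h 0 i n).toNat.Prime) with hS
    have hex : ∀ g : Fin T, ∃ s : Fin K, g ∈ S → (Fm a h 0 (ix g s) n).toNat.Prime := by
      intro g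
      by_cases hg : g ∈ S
      · obtain ⟨i, hi1, hi2⟩ := (mem_filter.1 hg).2
        refine ⟨sx i, fun _ => ?_⟩
        rw [← hi1, ix_cl]
        exact hi2
      · exact ⟨0, fun h => absurd h hg⟩
    choose σ hσ using hex
    exact mem_biUnion.2 ⟨(S, σ), mem_filter.2 ⟨mem_univ _, hn5⟩,
      mem_filter.2 ⟨hn1, hn3, hn4, hn6, fun g hg => hσ g hg⟩⟩
  have hbig : ∃ q ∈ Q, c / P * (N / (Real.log N) ^ (T * K + 1)) ≤ ((B q).card : ℝ) := by
    by_contra hcon
    push Not at hcon
    have e1 := (Nat.cast_le (α := ℝ)).2 ((card_le_card hsub).trans card_biUnion_le)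
    rw [Nat.cast_sum] at e1
    have e3 : Q.card ≤ P := by
      refine (card_le_univ _).trans ?_
      rw [Fintype.card_prod, Fintype.card_finset, Fintype.card_fun, Fintype.card_fin,
        Fintype.card_fin]
    have e4 : (Q.card : ℝ) ≤ P := by exact_mod_cast e3
    have hPr : (0 : ℝ) < P := by exact_mod_cast hP0
    have hX : 0 < N / (Real.log N) ^ (T * K + 1) := by positivity
    rcases Q.eq_empty_or_nonempty with hQe | hQne
    · rw [hQe, Finset.sum_empty] at e1
      have := hmain.trans e1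
      nlinarith
    · have e2 : ∑ q ∈ Q, ((B q).card : ℝ) < ∑ _q ∈ Q, c / P * (N / (Real.log N) ^ (T * K + 1)) :=
        Finset.sum_lt_sum_of_nonempty hQne hcon
      rw [Finset.sum_const, nsmul_eq_mul] at e2
      have e5 : (Q.card : ℝ) * (c / P * (N / (Real.log N) ^ (T * K + 1))) ≤
          P * (c / P * (N / (Real.log N) ^ (T * K + 1))) :=
        mul_le_mul_of_nonneg_right e4 (by positivity)
      have e6 : (P : ℝ) * (c / P * (N / (Real.log N) ^ (T * K + 1))) =
          c * (N / (Real.log N) ^ (T * K + 1)) := by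
        field_simp
      rw [e6] at e5
      have := hmain.trans e1
      linarith
  obtain ⟨⟨S, σ⟩, hq, hbig⟩ := hbig
  have hadm : ∀ p : ℕ, p.Prime → ∃ r : ℤ, ¬ (p : ℤ) ∣ r - s ∧
        ∀ g i, ¬ (p : ℤ) ∣ (f g i).1 * r + (f g i).2 := by
    intro p hp
    by_cases hpD : p ≤ D
    · have hpW : (p : ℤ) ∣ ((WW D : ℕ) : ℤ) := by
        have : p ∣ WW D := by
          rw [WW]
          exact dvd_prod_of_mem _ (mem_filter.2 ⟨mem_Icc.2 ⟨hp.one_lt.le, hpD⟩, hp⟩)
        exact Int.natCast_dvd_natCast.2 this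
      refine ⟨1 + s, ?_, fun g i hd => ?_⟩
      · intro hd
        rw [add_sub_cancel_right] at hd
        exact (Nat.prime_iff_prime_int.1 hp).not_isUnit (isUnit_of_dvd_one hd)
      · have h5 := hs3 (some (ix g i)) 1 (by rfl)
        have e1 : cl (ix g i) = g := cl_ix g i
        have e2 : sx (ix g i) = i := by
          unfold sx ix
          rw [Equiv.symm_apply_apply]
        simp only [uB, wB, ha, hh] at h5
        rw [e1, e2] at h5
        have h6 : (f g i).1 * (1 + (s : ℤ)) + (f g i).2 =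
            (f g i).1 * 1 + (((0 : ℕ) : ℤ) + ((f g i).2 + (f g i).1 * s)) := by
          push_cast
          ring
        rw [h6] at hd
        have h7 := h5.isUnit_of_dvd' hd hpW
        exact (Nat.prime_iff_prime_int.1 hp).not_isUnit h7
    · -- more residue classes than forms
      have := Fact.mk hp
      let b : Option (Fin T × Fin K) → ZMod p := fun j => match j with
        | none => ((s : ℤ) : ZMod p)
        | some x => - (((f x.1 x.2).2 : ℤ) : ZMod p) / (((f x.1 x.2).1 : ℤ) : ZMod p)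
      have hcard : (univ.image b).card < (univ : Finset (ZMod p)).card := by
        rw [card_univ, ZMod.card]
        have h5 : (univ.image b).card ≤ T * K + 1 := card_image_le.trans (by simp)
        omega
      obtain ⟨z, _, hz⟩ := Finset.exists_mem_notMem_of_card_lt_card hcard
      have hzb : ∀ j, z ≠ b j := fun j h => hz (mem_image.2 ⟨j, mem_univ _, h.symm⟩)
      refine ⟨(z.val : ℤ), fun h => ?_, fun g i h => ?_⟩
      · rw [← ZMod.intCast_zmod_eq_zero_iff_dvd] at h
        push_cast at h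
        rw [ZMod.natCast_zmod_val] at h
        apply hzb none
        show z = ((s : ℤ) : ZMod p)
        push_cast
        exact sub_eq_zero.1 h
      · by_cases hpa : (p : ℤ) ∣ (f g i).1
        · have h1 : (p : ℤ) ∣ (f g i).2 := (dvd_add_right (hpa.mul_right _)).1 h
          have h2 := (hAd g i).2.2.2.1.isUnit_of_dvd' hpa h1
          have h3 : p = 1 := by
            have := Int.isUnit_iff.1 h2
            omega
          exact hp.one_lt.ne' h3
        · rw [← ZMod.intCast_zmod_eq_zero_iff_dvd] at h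
          push_cast at h
          rw [ZMod.natCast_zmod_val] at h
          have hal : (((f g i).1 : ℤ) : ZMod p) ≠ 0 := by
            intro h1
            exact hpa ((ZMod.intCast_zmod_eq_zero_iff_dvd _ _).1 h1)
          apply hzb (some (g, i))
          show z = - (((f g i).2 : ℤ) : ZMod p) / (((f g i).1 : ℤ) : ZMod p)
          rw [eq_div_iff hal]
          linear_combination h
  refine ⟨s, S, σ, hs1, ?_, hadm, (mem_filter.1 hq).2, hbig.trans ?_⟩
  · intro g i
    have h5 := hs2 (ix g i)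
    have e1 : cl (ix g i) = g := cl_ix g i
    have e2 : sx (ix g i) = i := by
      unfold sx ix
      rw [Equiv.symm_apply_apply]
    simp only [e1, e2] at h5
    exact h5
  rw [Nat.cast_le, ← card_image_of_injective (B (S, σ)) (add_left_injective s)]
  apply card_le_card
  intro m hm
  obtain ⟨n, hn, rfl⟩ := mem_image.1 hm
  obtain ⟨hn1, hn0, hn2, hn4, hn3⟩ := mem_filter.1 hn
  rw [mem_Icc] at hn1
  unfold Rs'
  rw [mem_filter, mem_Icc]
  have hs0 : (s : ℝ) ≤ N / 2 := by
    have h8 : 100 * ((A : ℝ) * s + s) ≤ N := by exact_mod_cast hAsN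
    have h9 : (0 : ℝ) ≤ (A : ℝ) * s := by positivity
    linarith
  have hns : ((n + s : ℕ) : ℝ) ≤ N := by push_cast; linarith
  have hδN : ∀ p : ℕ, Real.log p ≤ δ / 2 * Real.log N → Real.log p ≤ δ * Real.log N := by
    intro p h5
    have : 0 < δ * Real.log N := by positivity
    linarith
  refine ⟨⟨by omega, by exact_mod_cast hns⟩, ?_, ?_, ?_, ?_, fun g hg => ?_⟩
  · push_cast
    have : (0 : ℝ) ≤ s := Nat.cast_nonneg s
    linarith
  · push_cast
    linarith
  · intro p hp hpl hd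
    apply hn4 p hp (hδN p hpl) none
    unfold LZ
    simp only [uB, wB]
    have e3 : ((n + s : ℕ) : ℤ) - s = 1 * (n : ℤ) + 0 := by push_cast; ring
    rw [e3] at hd
    exact Int.natCast_dvd.1 hd
  · intro g i p hp hpl hd
    apply hn4 p hp (hδN p hpl) (some (ix g i))
    unfold LZ
    have e1 : cl (ix g i) = g := cl_ix g i
    have e2 : sx (ix g i) = i := by
      unfold sx ix
      rw [Equiv.symm_apply_apply]
    simp only [uB, wB, ha, hh]
    rw [e1, e2]
    have e3 : (f g i).1 * ((n + s : ℕ) : ℤ) + (f g i).2 =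
        (f g i).1 * (n : ℤ) + (((0 : ℕ) : ℤ) + ((f g i).2 + (f g i).1 * s)) := by push_cast; ring
    rw [e3] at hd
    exact Int.natCast_dvd.1 hd
  · have h5 := hn3 g hg
    have h6 : Fm a h 0 (ix g (σ g)) n = (f g (σ g)).1 * ((n + s : ℕ) : ℤ) + (f g (σ g)).2 := by
      unfold Fm
      simp only [ha, hh]
      have e1 : cl (ix g (σ g)) = g := cl_ix g (σ g)
      have e2 : sx (ix g (σ g)) = σ g := by
        unfold sx ix
        rw [Equiv.symm_apply_apply]
      rw [e1, e2]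
      push_cast
      ring
    rw [h6] at h5
    exact h5

end Pool.Agent.K6.H45.RT.Lam
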