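import Pool.Agent.K6.H45.RT.Main
import Pool.Agent.K6.H45.RT.Clq
import Pool.Agent.K6.H45.RT.Hit
import Pool.Agent.K6.H45.RT.WB2
import Pool.Agent.K6.H45.RT.E12
import Pool.Agent.K6.H45.RT.E22
import Pool.Agent.K6.H45.RT.HITM2
import Pool.Agent.N646.RO.All
import Pool.Agent.N123.RG_POL

/-!
# The right order of magnitude for the forms `± n + c`, `± 2 n + c`: assembly
-/

set_option autoImplicit false

namespace Pool.Agent.K6.H45.RT

open Finset Filter Topology

theorem sWB2 : S_WB2 := WB2.main Pool.Agent.N646.RO.sWB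

theorem sE12 : S_E12 := E12.main sWB2 Pool.Agent.N646.RO.sBB

theorem sHITM2 (k : ℕ) : S_HITM2 k := HITM2.main Hit.main sE12 k (E22.main sWB2 k)

/-- three binary equations, with the right order of magnitude, in every window -/
theorem three_final (ε lam : ℝ) (hε : 0 < ε) (hlam : 0 < lam) :
    ∃ κ : ℝ, 0 < κ ∧ ∀ᶠ N : ℕ in atTop, ∀ H : ℕ, lam * Real.log N ≤ H → 50 * H ≤ N →
      (5 / 27 - ε) * H ≤ ((WW (κ * (N / (Real.log N) ^ 2)) N H 1 1 2).card : ℝ) +
        ((WW (κ * (N / (Real.log N) ^ 2)) N H 2 (-1) 1).card : ℝ) +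
        ((WW (κ * (N / (Real.log N) ^ 2)) N H 2 1 3).card : ℝ) :=
  mainT (fun ε hε => clq (Pool.Agent.N591.RQ.main Pool.Agent.N595.RQ.main) (sHITM2 1) 4 (by norm_num)
    ε hε) Pool.Agent.N123.RGPOL.main ε lam hε hlam

end Pool.Agent.K6.H45.RT
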