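import Pool.Agent.K6.H45.RT.ClqB
import Pool.Agent.K6.H45.RT.Lam

/-! One configuration, without short averages: from `lamR1`. -/

set_option autoImplicit false

namespace Pool.Agent.K6.H45.RT

open Finset Filter Topology
open Pool.Agent.K6.H45.RT.Lam

open Classical in
theorem hitB : S_HITB := by
  intro T M hT hTM
  obtain ⟨K, hK, δ, hδ, H0⟩ := lamR1 T M hT hTM
  obtain ⟨s₀, c, hc, H1⟩ := H0 2
  refine ⟨K, hK, c, hc, ?_⟩
  filter_upwards [H1, eventually_ge_atTop (200 * (s₀ + 3))] with N hN hN4 f hinj hA hloc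
  obtain ⟨s, S, σ, h1, _, _, h2, h3⟩ := hN (fun g i => f (g, i)) (by
      rintro ⟨a, b⟩ ⟨a', b'⟩ h
      exact hinj h) (by
      intro g i
      obtain ⟨a1, a2, a3⟩ := hA (g, i)
      have e6 : (f (g, i)).1 ≠ 0 ∧ |(f (g, i)).1| ≤ 2 := by
        rcases a1 with h | h | ⟨h | h, -⟩ <;> rw [h] <;> norm_num
      refine ⟨e6.1, e6.2, ?_, ?_, ?_⟩
      · show 4 * |(f (g, i)).2| ≤ 5 * (N : ℤ)
        omega
      · show IsCoprime (f (g, i)).1 (f (g, i)).2
        rcases a1 with h | h | ⟨h, h'⟩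
        · rw [h]
          exact isCoprime_one_left
        · rw [h]
          exact isCoprime_one_left.neg_left
        · have h9 : IsCoprime (2 : ℤ) (f (g, i)).2 := by
            refine ⟨-((f (g, i)).2 / 2), 1, ?_⟩
            omega
          rcases h with h | h
          · rw [h]
            exact h9
          · rw [h]
            exact h9.neg_left
      · intro t ht1 ht2
        have h5 := a3 t ht1 ht2
        have hN0 : (0 : ℝ) ≤ N := Nat.cast_nonneg _
        show (N : ℝ) / 24 ≤ (((f (g, i)).1 : ℤ) : ℝ) * t + (((f (g, i)).2 : ℤ) : ℝ)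
        linarith) (by
      intro p hp hpk
      obtain ⟨r, hr⟩ := hloc p hp hpk
      exact ⟨r, fun g i => hr (g, i)⟩)
  refine ⟨S, σ, h2, h3.trans ?_⟩
  rw [Nat.cast_le]
  apply card_le_card
  intro n hn
  simp only [Rs', mem_filter, mem_Icc] at hn
  obtain ⟨⟨hn1, hn2⟩, hn3, hn3', hn4, hn5, hn6⟩ := hn
  rw [mem_filter, IN, mem_Icc]
  refine ⟨⟨?_, ?_⟩, fun g hg => hn6 g hg⟩
  · have h1 : ((N / 18 : ℕ) : ℝ) ≤ N / 18 := by
      have := @Nat.cast_div_le ℝ _ _ _ N 18
      simpa using this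
    have hN0 : (0 : ℝ) ≤ N := Nat.cast_nonneg _
    have h2 : ((N / 18 : ℕ) : ℝ) ≤ n := by linarith
    exact_mod_cast h2
  · have h4 : 2 * n ≤ N + 2 * s := by
      have : (2 : ℝ) * n ≤ N + 2 * s := by linarith
      exact_mod_cast this
    omega

end Pool.Agent.K6.H45.RT
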