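import Pool.Agent.K6.H45.RT.MainB
import Pool.Agent.K6.H45.RT.HitB
import Pool.Agent.N646.RO.All
import Pool.Agent.N123.RG_POL

/-!
# Three binary equations in bounded windows: assembly
-/

set_option autoImplicit false

namespace Pool.Agent.K6.H45.RT

open Finset Filter Topology

/-- three binary equations in bounded windows -/
theorem three_bounded (ε : ℝ) (hε : 0 < ε) :
    ∃ C : ℕ, ∀ᶠ N : ℕ in atTop, ∀ H : ℕ, C ≤ H → 50 * H ≤ N →
      (5 / 27 - ε) * H ≤ ((WW (N / (Real.log N) ^ C) N H 1 1 2).card : ℝ) +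
        ((WW (N / (Real.log N) ^ C) N H 2 (-1) 1).card : ℝ) +
        ((WW (N / (Real.log N) ^ C) N H 2 1 3).card : ℝ) :=
  mainB (Pool.Agent.N591.RQ.main Pool.Agent.N595.RQ.main) hitB Pool.Agent.N123.RGPOL.main ε hε

end Pool.Agent.K6.H45.RT
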