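import Pool.Agent.K6.H45.DG.Cmb

/-! Four sets and the six sets of their popular sums `x + y`, `2 x + y`, `2 x - y`. -/

set_option autoImplicit false

namespace Pool.Agent.K6.H45.RT

open Finset
open Pool.Agent.N646.RG (S_POL popsum)
open Pool.Agent.K6.H45.DG (rfl' rfl'_sub rfl'_card)

open Classical in
/-- popular values of `2 x + y` -/
theorem pop2 (hPOL : S_POL) (A B : Finset ℕ) (T s : ℕ) (hA : A ⊆ range T) (hB : B ⊆ range T)
    (hs : 1 ≤ s) (hsA : s ≤ A.card) (hsB : s ≤ B.card) (E : ℕ → Prop) (β : ℝ)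
    (hbad : (((A ×ˢ B).filter (fun x => ¬ E (2 * x.1 + x.2))).card : ℝ) ≤ β) :
    (A.card : ℝ) + B.card - s - β / s ≤ (((range (3 * T)).filter E).card : ℝ) := by
  have hinj : Function.Injective (fun x : ℕ => 2 * x) := fun a b hab => by
    have : 2 * a = 2 * b := hab
    omega
  have hAc : (A.image (fun x => 2 * x)).card = A.card := card_image_of_injective _ hinj
  obtain ⟨E', hE'⟩ : ∃ E' : ℕ → Prop, ∀ t, E' t ↔ (t < 3 * T ∧ E t) := ⟨_, fun t => Iff.rfl⟩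
  have h1 := popsum hPOL (A.image (fun x => 2 * x)) B (2 * T) s (by
    intro z hz
    obtain ⟨x, hx, rfl⟩ := mem_image.1 hz
    have := mem_range.1 (hA hx)
    rw [mem_range]
    show 2 * x < 2 * T
    omega) (fun z hz => by
    have := mem_range.1 (hB hz)
    rw [mem_range]
    omega) hs (by rw [hAc]; exact hsA) hsB E' β (by
    refine le_trans ?_ hbad
    rw [Nat.cast_le]
    have : (A.image (fun x => 2 * x) ×ˢ B).filter (fun x => ¬ E' (x.1 + x.2)) ⊆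
        ((A ×ˢ B).filter (fun x => ¬ E (2 * x.1 + x.2))).image (fun x => (2 * x.1, x.2)) := by
      rintro ⟨a, b⟩ hx
      obtain ⟨hx1, hx2⟩ := mem_filter.1 hx
      obtain ⟨hx3, hx4⟩ := mem_product.1 hx1
      obtain ⟨y, hy, hya⟩ := mem_image.1 hx3
      simp only at hx2 hya hx4
      subst hya
      have h1 := mem_range.1 (hA hy)
      have h2 := mem_range.1 (hB hx4)
      refine mem_image.2 ⟨(y, b), mem_filter.2 ⟨mem_product.2 ⟨hy, hx4⟩, ?_⟩, rfl⟩
      intro hE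
      exact hx2 ((hE' _).2 ⟨by omega, hE⟩)
    exact (card_le_card this).trans card_image_le)
  rw [hAc] at h1
  refine h1.trans ?_
  rw [Nat.cast_le]
  apply card_le_card
  intro t ht
  obtain ⟨h2, h3⟩ := (hE' t).1 (mem_filter.1 ht).2
  exact mem_filter.2 ⟨mem_range.2 h2, h3⟩

open Classical in
/-- popular values of `2 x - y` -/
theorem pop3 (hPOL : S_POL) (A B : Finset ℕ) (T s : ℕ) (hA : A ⊆ range T) (hB : B ⊆ range T)
    (hT : 1 ≤ T)
    (hs : 1 ≤ s) (hsA : s ≤ A.card) (hsB : s ≤ B.card) (E : ℕ → Prop) (β : ℝ)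
    (hbad : (((A ×ˢ B).filter (fun x => ¬ E (2 * x.1 + (T - 1 - x.2)))).card : ℝ) ≤ β) :
    (A.card : ℝ) + B.card - s - β / s ≤ (((range (3 * T)).filter E).card : ℝ) := by
  have h1 := pop2 hPOL A (rfl' T B) T s hA (rfl'_sub hT) hs hsA (by rw [rfl'_card hB]; exact hsB) E β (by
    refine le_trans ?_ hbad
    rw [Nat.cast_le]
    have : (A ×ˢ rfl' T B).filter (fun x => ¬ E (2 * x.1 + x.2)) ⊆
        ((A ×ˢ B).filter (fun x => ¬ E (2 * x.1 + (T - 1 - x.2)))).image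
          (fun x => (x.1, T - 1 - x.2)) := by
      rintro ⟨a, b⟩ hx
      obtain ⟨hx1, hx2⟩ := mem_filter.1 hx
      obtain ⟨hx3, hx4⟩ := mem_product.1 hx1
      obtain ⟨y, hy, hya⟩ := mem_image.1 hx4
      simp only at hx2 hya hx3
      subst hya
      exact mem_image.2 ⟨(a, y), mem_filter.2 ⟨mem_product.2 ⟨hx3, hy⟩, hx2⟩, rfl⟩
    exact (card_le_card this).trans card_image_le)
  rwa [rfl'_card hB] at h1

open Classical in
/-- **the combinatorial lemma for four sets** -/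
theorem comb3 (hPOL : S_POL) (ε : ℝ) (hε : 0 < ε) : ∃ ε₁ : ℝ, 0 < ε₁ ∧ ∃ T₀ : ℕ, 1 ≤ T₀ ∧ ∀ T : ℕ, T₀ ≤ T →
    ∀ A₀ A₁ A₂ A₃ : Finset ℕ, A₀ ⊆ range T → A₁ ⊆ range T → A₂ ⊆ range T → A₃ ⊆ range T →
    (10 / 9 - ε₁) * T ≤ (A₀.card : ℝ) + A₁.card + A₂.card + A₃.card →
    ∀ E₁ E₂ E₃ E₄ E₅ E₆ : ℕ → Prop,
    (((A₀ ×ˢ A₁).filter (fun x => ¬ E₁ (x.1 + x.2))).card : ℝ) ≤ ε₁ * (T : ℝ) ^ 2 →
    (((A₂ ×ˢ A₃).filter (fun x => ¬ E₂ (x.1 + x.2))).card : ℝ) ≤ ε₁ * (T : ℝ) ^ 2 →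
    (((A₀ ×ˢ A₂).filter (fun x => ¬ E₃ (2 * x.1 + (T - 1 - x.2)))).card : ℝ) ≤ ε₁ * (T : ℝ) ^ 2 →
    (((A₁ ×ˢ A₃).filter (fun x => ¬ E₄ (2 * x.1 + (T - 1 - x.2)))).card : ℝ) ≤ ε₁ * (T : ℝ) ^ 2 →
    (((A₀ ×ˢ A₃).filter (fun x => ¬ E₅ (2 * x.1 + x.2))).card : ℝ) ≤ ε₁ * (T : ℝ) ^ 2 →
    (((A₁ ×ˢ A₂).filter (fun x => ¬ E₆ (2 * x.1 + x.2))).card : ℝ) ≤ ε₁ * (T : ℝ) ^ 2 →
    (10 / 9 - ε) * T ≤ (((range (2 * T)).filter E₁).card : ℝ) + (((range (2 * T)).filter E₂).card : ℝ) +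
      ((((range (3 * T)).filter E₃).card : ℝ) + (((range (3 * T)).filter E₄).card : ℝ)) +
      ((((range (3 * T)).filter E₅).card : ℝ) + (((range (3 * T)).filter E₆).card : ℝ)) := by
  set η : ℝ := min (ε / 20) (1 / 1000) with hη
  have hη0 : 0 < η := lt_min (by positivity) (by norm_num)
  have hη1 : η ≤ ε / 20 := min_le_left _ _
  have hη2 : η ≤ 1 / 1000 := min_le_right _ _
  refine ⟨η ^ 2 / 100, by positivity, ⌈1 / η⌉₊, ?_, ?_⟩
  · rw [Nat.one_le_ceil_iff]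
    positivity
  intro T hT A₀ A₁ A₂ A₃ hA₀ hA₁ hA₂ hA₃ htot E₁ E₂ E₃ E₄ E₅ E₆ h1 h2 h3 h4 h5 h6
  have hT1 : 1 / η ≤ T := (Nat.le_ceil _).trans (by exact_mod_cast hT)
  have hT2 : 1 ≤ η * T := by
    rw [div_le_iff₀ hη0] at hT1
    linarith
  have hTp : (0 : ℝ) < T := by
    by_contra h
    push Not at h
    nlinarith
  have hT1' : 1 ≤ T := by exact_mod_cast hTp
  set s : ℕ := ⌈η * T⌉₊ with hs
  have hs1 : 1 ≤ s := by
    rw [hs, Nat.one_le_ceil_iff]
    positivity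
  have hs2 : η * T ≤ s := Nat.le_ceil _
  have hs3 : (s : ℝ) ≤ 2 * (η * T) := by
    have := Nat.ceil_lt_add_one (a := η * T) (by positivity)
    rw [← hs] at this
    linarith
  have hsp : (0 : ℝ) < s := by exact_mod_cast hs1
  set β : ℝ := η ^ 2 / 100 * (T : ℝ) ^ 2 with hβ
  have hβs : β / s ≤ η * T := by
    rw [div_le_iff₀ hsp, hβ]
    have h1 : (η * T) * (η * T) ≤ (η * T) * s := mul_le_mul_of_nonneg_left hs2 (by positivity)
    nlinarith
  have hsm : ∀ A : Finset ℕ, ¬ s ≤ A.card → (A.card : ℝ) ≤ 2 * (η * T) := by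
    intro A hA
    have h1 : (A.card : ℝ) ≤ s := by exact_mod_cast (not_le.1 hA).le
    linarith
  have k1 : s ≤ A₀.card → s ≤ A₁.card → (A₀.card : ℝ) + A₁.card - 3 * (η * T) ≤
      (((range (2 * T)).filter E₁).card : ℝ) := fun a b => by
    have := popsum hPOL A₀ A₁ T s hA₀ hA₁ hs1 a b E₁ β h1
    linarith
  have k2 : s ≤ A₂.card → s ≤ A₃.card → (A₂.card : ℝ) + A₃.card - 3 * (η * T) ≤
      (((range (2 * T)).filter E₂).card : ℝ) := fun a b => by
    have := popsum hPOL A₂ A₃ T s hA₂ hA₃ hs1 a b E₂ β h2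
    linarith
  have k3 : s ≤ A₀.card → s ≤ A₂.card → (A₀.card : ℝ) + A₂.card - 3 * (η * T) ≤
      (((range (3 * T)).filter E₃).card : ℝ) := fun a b => by
    have := pop3 hPOL A₀ A₂ T s hA₀ hA₂ hT1' hs1 a b E₃ β h3
    linarith
  have k4 : s ≤ A₁.card → s ≤ A₃.card → (A₁.card : ℝ) + A₃.card - 3 * (η * T) ≤
      (((range (3 * T)).filter E₄).card : ℝ) := fun a b => by
    have := pop3 hPOL A₁ A₃ T s hA₁ hA₃ hT1' hs1 a b E₄ β h4
    linarith
  have k5 : s ≤ A₀.card → s ≤ A₃.card → (A₀.card : ℝ) + A₃.card - 3 * (η * T) ≤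
      (((range (3 * T)).filter E₅).card : ℝ) := fun a b => by
    have := pop2 hPOL A₀ A₃ T s hA₀ hA₃ hs1 a b E₅ β h5
    linarith
  have k6 : s ≤ A₁.card → s ≤ A₂.card → (A₁.card : ℝ) + A₂.card - 3 * (η * T) ≤
      (((range (3 * T)).filter E₆).card : ℝ) := fun a b => by
    have := pop2 hPOL A₁ A₂ T s hA₁ hA₂ hs1 a b E₆ β h6
    linarith
  have hη20 : 20 * (η * T) ≤ ε * T := by nlinarith
  have hη21 : η ^ 2 / 100 * T ≤ η * T := by nlinarith
  have hE1 : (0 : ℝ) ≤ (((range (2 * T)).filter E₁).card : ℝ) := Nat.cast_nonneg _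
  have hE2 : (0 : ℝ) ≤ (((range (2 * T)).filter E₂).card : ℝ) := Nat.cast_nonneg _
  have hE3 : (0 : ℝ) ≤ (((range (3 * T)).filter E₃).card : ℝ) := Nat.cast_nonneg _
  have hE4 : (0 : ℝ) ≤ (((range (3 * T)).filter E₄).card : ℝ) := Nat.cast_nonneg _
  have hE5 : (0 : ℝ) ≤ (((range (3 * T)).filter E₅).card : ℝ) := Nat.cast_nonneg _
  have hE6 : (0 : ℝ) ≤ (((range (3 * T)).filter E₆).card : ℝ) := Nat.cast_nonneg _
  have a0 : (0 : ℝ) ≤ A₀.card := Nat.cast_nonneg _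
  have a1 : (0 : ℝ) ≤ A₁.card := Nat.cast_nonneg _
  have a2 : (0 : ℝ) ≤ A₂.card := Nat.cast_nonneg _
  have a3 : (0 : ℝ) ≤ A₃.card := Nat.cast_nonneg _
  have cle : ∀ A : Finset ℕ, A ⊆ range T → (A.card : ℝ) ≤ T := by
    intro A hA
    have := card_le_card hA
    rw [card_range] at this
    exact_mod_cast this
  have c0 := cle A₀ hA₀
  have c1 := cle A₁ hA₁
  have c2 := cle A₂ hA₂
  have c3 := cle A₃ hA₃
  have hηT : η * T ≤ 1 / 1000 * T := mul_le_mul_of_nonneg_right hη2 hTp.le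
  by_cases c0' : s ≤ A₀.card <;> by_cases c1' : s ≤ A₁.card <;>
    by_cases c2' : s ≤ A₂.card <;> by_cases c3' : s ≤ A₃.card
  · have := k1 c0' c1'
    have := k2 c2' c3'
    linarith
  · have := k1 c0' c1'
    have := k3 c0' c2'
    have := hsm _ c3'
    linarith
  · have := k1 c0' c1'
    have := k5 c0' c3'
    have := hsm _ c2'
    linarith
  · have := k1 c0' c1'
    have := hsm _ c2'
    have := hsm _ c3'
    linarith
  · have := k3 c0' c2'
    have := k5 c0' c3'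
    have := hsm _ c1'
    linarith
  · have := k3 c0' c2'
    have := hsm _ c1'
    have := hsm _ c3'
    linarith
  · have := k5 c0' c3'
    have := hsm _ c1'
    have := hsm _ c2'
    linarith
  · exfalso
    have := hsm _ c1'
    have := hsm _ c2'
    have := hsm _ c3'
    linarith
  · have := k6 c1' c2'
    have := k4 c1' c3'
    have := hsm _ c0'
    linarith
  · have := k6 c1' c2'
    have := hsm _ c0'
    have := hsm _ c3'
    linarith
  · have := k4 c1' c3'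
    have := hsm _ c0'
    have := hsm _ c2'
    linarith
  · exfalso
    have := hsm _ c0'
    have := hsm _ c2'
    have := hsm _ c3'
    linarith
  · have := k2 c2' c3'
    have := hsm _ c0'
    have := hsm _ c1'
    linarith
  · exfalso
    have := hsm _ c0'
    have := hsm _ c1'
    have := hsm _ c3'
    linarith
  · exfalso
    have := hsm _ c0'
    have := hsm _ c1'
    have := hsm _ c2'
    linarith
  · exfalso
    have := hsm _ c0'
    have := hsm _ c1'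
    have := hsm _ c2'
    have := hsm _ c3'
    linarith

end Pool.Agent.K6.H45.RT
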