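import Mathlib

/-! Counting in windows, class by class, with two parameters. -/

set_option autoImplicit false

namespace Pool.Agent.K6.H45.RT

open Finset

open Classical in
theorem inj6 {q M S : ℕ} (hM : M = 6 * q) (b σ : ℤ) (hσ : σ = 1 ∨ σ = -1)
    (P : ℤ → Prop) (W : Finset ℤ)
    (h : ∀ y : ℕ, y < q → ∀ s : ℕ, s < S → P (b + 6 * σ * y + M * s) → b + 6 * σ * y + M * s ∈ W) :
    ∑ y ∈ range q, (((range S).filter (fun s : ℕ => P (b + 6 * σ * y + M * s))).card : ℝ) ≤
      (W.card : ℝ) := by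
  have key : ∑ y ∈ range q, ((range S).filter (fun s : ℕ => P (b + 6 * σ * y + M * s))).card ≤
      W.card := by
    rw [← card_sigma]
    apply card_le_card_of_injOn (fun z : (Σ _ : ℕ, ℕ) => b + 6 * σ * (z.1 : ℤ) + M * (z.2 : ℤ))
    · rintro ⟨y, s⟩ hz
      rw [mem_coe, mem_sigma] at hz
      obtain ⟨hy, hs⟩ := hz
      obtain ⟨hs1, hs2⟩ := mem_filter.1 hs
      exact h y (mem_range.1 hy) s (mem_range.1 hs1) hs2
    · rintro ⟨y, s⟩ hz ⟨y', s'⟩ hz' hh
      rw [mem_coe, mem_sigma] at hz hz'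
      have h1 := mem_range.1 hz.1
      have h1' := mem_range.1 hz'.1
      simp only at hh h1 h1'
      rw [hM] at hh
      push_cast at hh
      have hq : (0 : ℤ) < q := by omega
      have h2 : σ * (y : ℤ) + q * s = σ * y' + q * s' := by linarith
      have h3 : s = s' := by
        rcases hσ with h | h <;> rw [h] at h2
        · have e1 : ((y : ℤ) + q * s) / q = s := by
            rw [Int.add_mul_ediv_left _ _ hq.ne', Int.ediv_eq_zero_of_lt (by omega) (by omega), zero_add]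
          have e2 : ((y' : ℤ) + q * s') / q = s' := by
            rw [Int.add_mul_ediv_left _ _ hq.ne', Int.ediv_eq_zero_of_lt (by omega) (by omega), zero_add]
          have e3 : (y : ℤ) + q * s = y' + q * s' := by linarith
          rw [e3] at e1
          have : (s : ℤ) = s' := by rw [← e1, e2]
          exact_mod_cast this
        · have e1 : ((y' : ℤ) + q * s) / q = s := by
            rw [Int.add_mul_ediv_left _ _ hq.ne', Int.ediv_eq_zero_of_lt (by omega) (by omega), zero_add]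
          have e2 : ((y : ℤ) + q * s') / q = s' := by
            rw [Int.add_mul_ediv_left _ _ hq.ne', Int.ediv_eq_zero_of_lt (by omega) (by omega), zero_add]
          have e3 : (y' : ℤ) + q * s = y + q * s' := by linarith
          rw [e3] at e1
          have : (s : ℤ) = s' := by rw [← e1, e2]
          exact_mod_cast this
      subst h3
      have h4 : (y : ℤ) = y' := by
        rcases hσ with h | h <;> rw [h] at h2 <;> linarith
      have h5 : y = y' := by exact_mod_cast h4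
      subst h5
      rfl
  exact_mod_cast key

theorem two {q : ℕ} (hq : 0 < q) (c : ℝ) (F1 F2 F3 F4 F5 F6 : ℕ → ℕ → ℝ) (w1 w2 w3 w4 w5 w6 : ℝ)
    (h : ∀ u < q, ∀ v < q, c ≤ F1 u v + F2 u v + (F3 u v + F4 u v) + (F5 u v + F6 u v))
    (h1 : ∀ v < q, ∑ u ∈ range q, F1 u v ≤ w1) (h2 : ∀ u < q, ∑ v ∈ range q, F2 u v ≤ w2)
    (h3 : ∀ u < q, ∑ v ∈ range q, F3 u v ≤ w3) (h4 : ∀ v < q, ∑ u ∈ range q, F4 u v ≤ w4)
    (h5 : ∀ v < q, ∑ u ∈ range q, F5 u v ≤ w5) (h6 : ∀ u < q, ∑ v ∈ range q, F6 u v ≤ w6) :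
    q * c ≤ w1 + w2 + (w3 + w4) + (w5 + w6) := by
  have hA : ∀ (F : ℕ → ℕ → ℝ) (w : ℝ), (∀ u < q, ∑ v ∈ range q, F u v ≤ w) →
      ∑ u ∈ range q, ∑ v ∈ range q, F u v ≤ q * w := by
    intro F w hF
    refine (sum_le_sum fun u hu => hF u (mem_range.1 hu)).trans ?_
    rw [sum_const, card_range, nsmul_eq_mul]
  have hB : ∀ (F : ℕ → ℕ → ℝ) (w : ℝ), (∀ v < q, ∑ u ∈ range q, F u v ≤ w) →
      ∑ u ∈ range q, ∑ v ∈ range q, F u v ≤ q * w := by
    intro F w hF
    rw [sum_comm]
    exact hA (fun v u => F u v) w hF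
  have hs : (q : ℝ) * (q * c) ≤ ∑ u ∈ range q, ∑ v ∈ range q,
      (F1 u v + F2 u v + (F3 u v + F4 u v) + (F5 u v + F6 u v)) := by
    have : (q : ℝ) * (q * c) = ∑ _u ∈ range q, ∑ _v ∈ range q, c := by
      rw [sum_const, sum_const, card_range, nsmul_eq_mul, nsmul_eq_mul]
    rw [this]
    exact sum_le_sum fun u hu => sum_le_sum fun v hv => h u (mem_range.1 hu) v (mem_range.1 hv)
  simp only [sum_add_distrib] at hs
  have k1 := hB F1 w1 h1
  have k2 := hA F2 w2 h2
  have k3 := hA F3 w3 h3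
  have k4 := hB F4 w4 h4
  have k5 := hB F5 w5 h5
  have k6 := hA F6 w6 h6
  have hqR : (0 : ℝ) < q := by exact_mod_cast hq
  have : (q : ℝ) * (q * c) ≤ q * (w1 + w2 + (w3 + w4) + (w5 + w6)) := by linarith
  exact le_of_mul_le_mul_left this hqR

end Pool.Agent.K6.H45.RT
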