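import Pool.Agent.K6.H45.RT.Eqn
import Pool.Agent.K6.H45.RT.Win
import Pool.Agent.K6.H45.RT.Cmb

/-! The alternative for four classes, and its average over the classes. -/

set_option autoImplicit false

namespace Pool.Agent.K6.H45.RT

open Finset Filter Topology

/-- the equation `a p + b q = m` has `τ` solutions -/
def GG (τ : ℝ) (N : ℕ) (a b m : ℤ) : Prop := τ ≤ (sol a b N m : ℝ)

open Classical in
/-- the conclusion of the combinatorial lemma -/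
def Six (T : ℕ) (c : ℝ) (E₁ E₂ E₃ E₄ E₅ E₆ : ℕ → Prop) : Prop :=
  c ≤ (((range (2 * T)).filter E₁).card : ℝ) + (((range (2 * T)).filter E₂).card : ℝ) +
      ((((range (3 * T)).filter E₃).card : ℝ) + (((range (3 * T)).filter E₄).card : ℝ)) +
      ((((range (3 * T)).filter E₅).card : ℝ) + (((range (3 * T)).filter E₆).card : ℝ))

open Classical in
/-- **the alternative for four forms** -/
theorem altT {ε₁ τ c : ℝ} {N X M T : ℕ} (hX : X = 8 * N / 9) (hN : 1000 ≤ N)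
    (hM2 : 2 ∣ M) {c₀ c₁ c₂ c₃ : ℤ}
    (h0 : c₀ % 2 = 1) (h1 : c₁ % 2 = 1) (h2 : c₂ % 2 = 1) (h3 : c₃ % 2 = 1)
    (hr : ∃ r : ℤ, ¬ 3 ∣ r + c₀ ∧ ¬ 3 ∣ -r + c₁ ∧ ¬ 3 ∣ 2 * r + c₂ ∧ ¬ 3 ∣ -2 * r + c₃)
    (s0 : 99 * (N : ℤ) ≤ 100 * c₀) (s0' : 100 * (c₀ + M * T) ≤ 101 * (N : ℤ))
    (s1 : 99 * (N : ℤ) ≤ 100 * c₁) (s1' : 100 * (c₁ + M * T) ≤ 101 * (N : ℤ))
    (s2 : 99 * (N : ℤ) ≤ 100 * c₂) (s2' : 100 * (c₂ + M * T) ≤ 101 * (N : ℤ))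
    (s3 : 99 * (N : ℤ) ≤ 100 * c₃) (s3' : 100 * (c₃ + M * T) ≤ 101 * (N : ℤ))
    (hcl : ∀ f : Fin 4 → ℤ × ℤ, (∀ i j, (f i).1 = (f j).1 → i = j) →
      (∀ i, ∀ t ≤ T, Afm X (sh (f i) (M * t))) →
      (∀ p : ℕ, p.Prime → p ∣ M → ∃ r : ℤ, ∀ i, ¬ (p : ℤ) ∣ (f i).1 * r + (f i).2) →
      ∃ A : Fin 4 → Finset ℕ, (∀ i, A i ⊆ range T) ∧
        (5 / 18 - ε₁ / 4) * ((4 : ℕ) * T) ≤ ((∑ i, (A i).card : ℕ) : ℝ) ∧
        ∀ i j, (((A i ×ˢ A j).filter (fun x => (i, x.1) ≠ (j, x.2) ∧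
          ¬ Gt τ X ![sh (f i) (M * x.1), sh (f j) (M * x.2)])).card : ℝ) ≤ ε₁ / 4 * (T : ℝ) ^ 2)
    (hε₁ : 0 < ε₁)
    (hcomb : ∀ A₀ A₁ A₂ A₃ : Finset ℕ, A₀ ⊆ range T → A₁ ⊆ range T → A₂ ⊆ range T → A₃ ⊆ range T →
    (10 / 9 - ε₁) * T ≤ (A₀.card : ℝ) + A₁.card + A₂.card + A₃.card →
    ∀ E₁ E₂ E₃ E₄ E₅ E₆ : ℕ → Prop,
    (((A₀ ×ˢ A₁).filter (fun x => ¬ E₁ (x.1 + x.2))).card : ℝ) ≤ ε₁ * (T : ℝ) ^ 2 →
    (((A₂ ×ˢ A₃).filter (fun x => ¬ E₂ (x.1 + x.2))).card : ℝ) ≤ ε₁ * (T : ℝ) ^ 2 →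
    (((A₀ ×ˢ A₂).filter (fun x => ¬ E₃ (2 * x.1 + (T - 1 - x.2)))).card : ℝ) ≤ ε₁ * (T : ℝ) ^ 2 →
    (((A₁ ×ˢ A₃).filter (fun x => ¬ E₄ (2 * x.1 + (T - 1 - x.2)))).card : ℝ) ≤ ε₁ * (T : ℝ) ^ 2 →
    (((A₀ ×ˢ A₃).filter (fun x => ¬ E₅ (2 * x.1 + x.2))).card : ℝ) ≤ ε₁ * (T : ℝ) ^ 2 →
    (((A₁ ×ˢ A₂).filter (fun x => ¬ E₆ (2 * x.1 + x.2))).card : ℝ) ≤ ε₁ * (T : ℝ) ^ 2 →
      Six T c E₁ E₂ E₃ E₄ E₅ E₆) :
    Six T c (fun s => GG τ N 1 1 (c₀ + c₁ + M * s)) (fun s => GG τ N 1 1 (c₂ + c₃ + M * s))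
      (fun s => GG τ N 2 (-1) (2 * c₀ - c₂ - M * (T - 1) + M * s))
      (fun s => GG τ N 2 (-1) (2 * c₁ - c₃ - M * (T - 1) + M * s))
      (fun s => GG τ N 2 1 (2 * c₀ + c₃ + M * s))
      (fun s => GG τ N 2 1 (2 * c₁ + c₂ + M * s)) := by
  have hMz : (2 : ℤ) ∣ M := by exact_mod_cast hM2
  have hMt : ∀ t : ℕ, ((M * t : ℕ) : ℤ) % 2 = 0 := by
    intro t
    have : (2 : ℤ) ∣ ((M * t : ℕ) : ℤ) := by
      push_cast
      exact Dvd.dvd.mul_right hMz _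
    omega
  have hMtT : ∀ t : ℕ, t ≤ T → ((M * t : ℕ) : ℤ) ≤ M * T ∧ 0 ≤ ((M * t : ℕ) : ℤ) := by
    intro t ht
    have : M * t ≤ M * T := Nat.mul_le_mul_left _ ht
    have h5 : ((M * t : ℕ) : ℤ) ≤ ((M * T : ℕ) : ℤ) := by exact_mod_cast this
    push_cast at h5 ⊢
    exact ⟨h5, by positivity⟩
  have hA0 : ∀ t ≤ T, sh (fT c₀ c₁ c₂ c₃ 0) (M * t) = (1, c₀ + ((M * t : ℕ) : ℤ)) := fun t _ => rfl
  have hA1 : ∀ t ≤ T, sh (fT c₀ c₁ c₂ c₃ 1) (M * t) = (-1, c₁ + ((M * t : ℕ) : ℤ)) := fun t _ => rfl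
  have hA2 : ∀ t ≤ T, sh (fT c₀ c₁ c₂ c₃ 2) (M * t) = (2, c₂ + ((M * t : ℕ) : ℤ)) := fun t _ => rfl
  have hA3 : ∀ t ≤ T, sh (fT c₀ c₁ c₂ c₃ 3) (M * t) = (-2, c₃ + ((M * t : ℕ) : ℤ)) := fun t _ => rfl
  obtain ⟨A, hA, hAt, hAb⟩ := hcl (fT c₀ c₁ c₂ c₃) (by
    intro i j hij
    fin_cases i <;> fin_cases j <;> first
      | rfl
      | exact absurd (show _ = _ from hij) (by simp [fT])) (by
    intro i t ht
    obtain ⟨q1, q2⟩ := hMtT t ht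
    have q3 := hMt t
    fin_cases i
    · show Afm X (sh (fT c₀ c₁ c₂ c₃ 0) (M * t))
      rw [hA0 t ht]
      exact afm_gen hX hN (Or.inl rfl) (by omega) (by omega)
    · show Afm X (sh (fT c₀ c₁ c₂ c₃ 1) (M * t))
      rw [hA1 t ht]
      exact afm_gen hX hN (Or.inr (Or.inl rfl)) (by omega) (by omega)
    · show Afm X (sh (fT c₀ c₁ c₂ c₃ 2) (M * t))
      rw [hA2 t ht]
      exact afm_gen hX hN (Or.inr (Or.inr ⟨Or.inl rfl, by omega⟩)) (by omega) (by omega)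
    · show Afm X (sh (fT c₀ c₁ c₂ c₃ 3) (M * t))
      rw [hA3 t ht]
      exact afm_gen hX hN (Or.inr (Or.inr ⟨Or.inr rfl, by omega⟩)) (by omega) (by omega))
    (fun p hp _ => locT c₀ c₁ c₂ c₃ h0 h1 h2 h3 hr p hp)
  -- the bad pairs
  have hbad : ∀ (i j : Fin 4) (a b a1 a2 : ℤ) (d1 d2 : ℤ) (E : ℕ → ℕ → ℤ), i ≠ j →
      (∀ t ≤ T, sh (fT c₀ c₁ c₂ c₃ i) (M * t) = (a1, d1 + ((M * t : ℕ) : ℤ))) →
      (∀ t ≤ T, sh (fT c₀ c₁ c₂ c₃ j) (M * t) = (a2, d2 + ((M * t : ℕ) : ℤ))) →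
      a1 ≠ 0 → a * a1 + b * a2 = 0 →
      (∀ t1 < T, ∀ t2 < T, a * (d1 + ((M * t1 : ℕ) : ℤ)) + b * (d2 + ((M * t2 : ℕ) : ℤ)) = E t1 t2) →
      (∀ n : ℕ, n ∈ IN X → a1 * n + (d1 + M * T) ≤ 2 * N) →
      (((A i ×ˢ A j).filter (fun x => ¬ GG τ N a b (E x.1 x.2))).card : ℝ) ≤
        ε₁ * (T : ℝ) ^ 2 := by
    intro i j a b a1 a2 d1 d2 E hij hi hj ha h0 hE hY
    refine le_trans ?_ ((hAb i j).trans (by nlinarith [sq_nonneg (T : ℝ)]))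
    rw [Nat.cast_le]
    apply card_le_card
    intro y hy
    obtain ⟨hy1, hy2⟩ := mem_filter.1 hy
    obtain ⟨hy3, hy4⟩ := mem_product.1 hy1
    have hy5 := mem_range.1 (hA i hy3)
    have hy6 := mem_range.1 (hA j hy4)
    refine mem_filter.2 ⟨hy1, fun h => hij (congrArg Prod.fst h), fun hG => hy2 ?_⟩
    rw [hi _ hy5.le, hj _ hy6.le] at hG
    refine gdf_sol hG ha h0 (hE _ hy5 _ hy6) ?_
    intro n hn
    have := hY n hn
    have := (hMtT y.1 hy5.le).1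
    linarith
  have hIN : ∀ n : ℕ, n ∈ IN X → 100 * n ≤ 51 * X + 100 := by
    intro n hn
    unfold IN at hn
    have := (mem_Icc.1 hn).2
    omega
  have hX9 : 9 * X ≤ 8 * N := by omega
  have hY1 : ∀ n : ℕ, n ∈ IN X → (1 : ℤ) * n + (c₀ + M * T) ≤ 2 * N := by
    intro n hn
    have := hIN n hn
    omega
  have hY2 : ∀ n : ℕ, n ∈ IN X → (-1 : ℤ) * n + (c₁ + M * T) ≤ 2 * N := by
    intro n hn
    have := hIN n hn
    omega
  have hY3 : ∀ n : ℕ, n ∈ IN X → (2 : ℤ) * n + (c₂ + M * T) ≤ 2 * N := by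
    intro n hn
    have := hIN n hn
    omega
  refine hcomb (A 0) (A 1) (A 2) (A 3) (hA _) (hA _) (hA _) (hA _) ?_ _ _ _ _ _ _ ?_ ?_ ?_ ?_ ?_ ?_
  · rw [Fin.sum_univ_four] at hAt
    push_cast at hAt
    linarith
  · exact hbad 0 1 1 1 1 (-1) c₀ c₁ (fun t1 t2 => c₀ + c₁ + M * ((t1 + t2 : ℕ) : ℤ)) (by decide)
      hA0 hA1 one_ne_zero (by norm_num) (by intro t1 _ t2 _; push_cast; ring) hY1
  · exact hbad 2 3 1 1 2 (-2) c₂ c₃ (fun t1 t2 => c₂ + c₃ + M * ((t1 + t2 : ℕ) : ℤ)) (by decide)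
      hA2 hA3 two_ne_zero (by norm_num) (by intro t1 _ t2 _; push_cast; ring) hY3
  · exact hbad 0 2 2 (-1) 1 2 c₀ c₂
      (fun t1 t2 => 2 * c₀ - c₂ - M * (T - 1) + M * ((2 * t1 + (T - 1 - t2) : ℕ) : ℤ)) (by decide)
      hA0 hA2 one_ne_zero (by norm_num) (by
        intro t1 _ t2 ht2
        have e1 : ((2 * t1 + (T - 1 - t2) : ℕ) : ℤ) = 2 * t1 + (T - 1 - t2) := by omega
        rw [e1]
        push_cast
        ring) hY1
  · exact hbad 1 3 2 (-1) (-1) (-2) c₁ c₃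
      (fun t1 t2 => 2 * c₁ - c₃ - M * (T - 1) + M * ((2 * t1 + (T - 1 - t2) : ℕ) : ℤ)) (by decide)
      hA1 hA3 (by norm_num) (by norm_num) (by
        intro t1 _ t2 ht2
        have e1 : ((2 * t1 + (T - 1 - t2) : ℕ) : ℤ) = 2 * t1 + (T - 1 - t2) := by omega
        rw [e1]
        push_cast
        ring) hY2
  · exact hbad 0 3 2 1 1 (-2) c₀ c₃ (fun t1 t2 => 2 * c₀ + c₃ + M * ((2 * t1 + t2 : ℕ) : ℤ))
      (by decide) hA0 hA3 one_ne_zero (by norm_num) (by intro t1 _ t2 _; push_cast; ring) hY1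
  · exact hbad 1 2 2 1 (-1) 2 c₁ c₂ (fun t1 t2 => 2 * c₁ + c₂ + M * ((2 * t1 + t2 : ℕ) : ℤ))
      (by decide) hA1 hA2 (by norm_num) (by norm_num) (by intro t1 _ t2 _; push_cast; ring) hY2

open Classical in
/-- the good `m` in the window which are `≡ ρ` modulo `3` -/
noncomputable def WW3 (τ : ℝ) (N H : ℕ) (a b e ρ : ℤ) : Finset ℤ :=
  (Icc (e * N - H) (e * N + H)).filter (fun m : ℤ => GG τ N a b m ∧ m % 3 = ρ)

open Classical in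
/-- **the average over the classes** with given residues modulo `6` -/
theorem avgT {τ c : ℝ} {N M T H q : ℕ} (hq : 0 < q) (hM : M = 6 * q)
    (B k₀ k₁ k₂ k₃ : ℤ) (hB6 : B % 6 = 0)
    (hB1 : 2 * B + M * T ≤ 2 * N) (hB2 : 2 * (N : ℤ) ≤ 2 * B + M * T + 12)
    (hk0 : 0 ≤ k₀) (hk0' : k₀ ≤ 5) (hk1 : 0 ≤ k₁) (hk1' : k₁ ≤ 5) (hk2 : 0 ≤ k₂) (hk2' : k₂ ≤ 5)
    (hk3 : 0 ≤ k₃) (hk3' : k₃ ≤ 5)
    (hH : 3 * (M * T) + 20 * M + 100 ≤ 2 * H)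
    (h : ∀ u < q, ∀ v < q,
      Six T c (fun s => GG τ N 1 1 ((B + k₀) + (B + k₁ + 6 * u) + M * s))
        (fun s => GG τ N 1 1 ((B + k₂ + 6 * v) + (B + k₃ + 6 * u) + M * s))
        (fun s => GG τ N 2 (-1) (2 * (B + k₀) - (B + k₂ + 6 * v) - M * (T - 1) + M * s))
        (fun s => GG τ N 2 (-1) (2 * (B + k₁ + 6 * u) - (B + k₃ + 6 * u) - M * (T - 1) + M * s))
        (fun s => GG τ N 2 1 (2 * (B + k₀) + (B + k₃ + 6 * u) + M * s))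
        (fun s => GG τ N 2 1 (2 * (B + k₁ + 6 * u) + (B + k₂ + 6 * v) + M * s))) :
    q * c ≤ ((WW3 τ N H 1 1 2 ((k₀ + k₁) % 3)).card : ℝ) + (WW3 τ N H 1 1 2 ((k₂ + k₃) % 3)).card +
      (((WW3 τ N H 2 (-1) 1 ((2 * k₀ - k₂) % 3)).card : ℝ) +
        (WW3 τ N H 2 (-1) 1 ((2 * k₁ - k₃) % 3)).card) +
      (((WW3 τ N H 2 1 3 ((2 * k₀ + k₃) % 3)).card : ℝ) +
        (WW3 τ N H 2 1 3 ((2 * k₁ + k₂) % 3)).card) := by
  have hMT1 : (M : ℤ) * (T - 1) = M * T - M := by ring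
  have hM3 : ∀ s : ℕ, (3 : ℤ) ∣ M * s := by
    intro s
    rw [hM]
    push_cast
    exact Dvd.dvd.mul_right (Dvd.dvd.mul_right (by norm_num) _) _
  have hM3' : (3 : ℤ) ∣ (M : ℤ) * T - M := by
    have h1 := hM3 T
    have h2 := hM3 1
    push_cast at h2
    omega
  have hMs2 : ∀ s : ℕ, s < 2 * T → 0 ≤ (M : ℤ) * s ∧ (M : ℤ) * s ≤ 2 * (M * T) := by
    intro s hs
    refine ⟨by positivity, ?_⟩
    have : M * s ≤ M * (2 * T) := Nat.mul_le_mul_left _ hs.le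
    have h2 : ((M * s : ℕ) : ℤ) ≤ ((M * (2 * T) : ℕ) : ℤ) := by exact_mod_cast this
    push_cast at h2
    linarith
  have hMs3 : ∀ s : ℕ, s < 3 * T → 0 ≤ (M : ℤ) * s ∧ (M : ℤ) * s ≤ 3 * (M * T) - M := by
    intro s hs
    refine ⟨by positivity, ?_⟩
    have : M * (s + 1) ≤ M * (3 * T) := Nat.mul_le_mul_left _ hs
    have h2 : ((M * (s + 1) : ℕ) : ℤ) ≤ ((M * (3 * T) : ℕ) : ℤ) := by exact_mod_cast this
    push_cast at h2
    linarith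
  have hHz : 3 * ((M : ℤ) * T) + 20 * M + 100 ≤ 2 * H := by exact_mod_cast hH
  have hMz : (M : ℤ) = 6 * q := by exact_mod_cast hM
  refine two hq c
    (fun u v => (((range (2 * T)).filter (fun s : ℕ =>
      GG τ N 1 1 ((B + k₀) + (B + k₁ + 6 * u) + M * s))).card : ℝ))
    (fun u v => (((range (2 * T)).filter (fun s : ℕ =>
      GG τ N 1 1 ((B + k₂ + 6 * v) + (B + k₃ + 6 * u) + M * s))).card : ℝ))
    (fun u v => (((range (3 * T)).filter (fun s : ℕ =>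
      GG τ N 2 (-1) (2 * (B + k₀) - (B + k₂ + 6 * v) - M * (T - 1) + M * s))).card : ℝ))
    (fun u v => (((range (3 * T)).filter (fun s : ℕ =>
      GG τ N 2 (-1) (2 * (B + k₁ + 6 * u) - (B + k₃ + 6 * u) - M * (T - 1) + M * s))).card : ℝ))
    (fun u v => (((range (3 * T)).filter (fun s : ℕ =>
      GG τ N 2 1 (2 * (B + k₀) + (B + k₃ + 6 * u) + M * s))).card : ℝ))
    (fun u v => (((range (3 * T)).filter (fun s : ℕ =>
      GG τ N 2 1 (2 * (B + k₁ + 6 * u) + (B + k₂ + 6 * v) + M * s))).card : ℝ))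
    _ _ _ _ _ _ h ?_ ?_ ?_ ?_ ?_ ?_
  · intro v hv
    have key := inj6 (S := 2 * T) hM (2 * B + k₀ + k₁) 1 (Or.inl rfl) (GG τ N 1 1)
      (WW3 τ N H 1 1 2 ((k₀ + k₁) % 3)) (by
        intro y hy s hs hP
        unfold WW3
        rw [mem_filter, mem_Icc]
        obtain ⟨g1, g2⟩ := hMs2 s hs
        have g3 := hM3 s
        refine ⟨⟨by omega, by omega⟩, hP, by omega⟩)
    refine le_trans (le_of_eq ?_) key
    refine sum_congr rfl fun y _ => ?_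
    congr 2
    refine filter_congr fun s _ => ?_
    have e : (B + k₀) + (B + k₁ + 6 * (y : ℤ)) + M * s = 2 * B + k₀ + k₁ + 6 * 1 * y + M * s := by ring
    rw [e]
  · intro u hu
    have key := inj6 (S := 2 * T) hM (2 * B + k₂ + k₃ + 6 * u) 1 (Or.inl rfl) (GG τ N 1 1)
      (WW3 τ N H 1 1 2 ((k₂ + k₃) % 3)) (by
        intro y hy s hs hP
        unfold WW3
        rw [mem_filter, mem_Icc]
        obtain ⟨g1, g2⟩ := hMs2 s hs
        have g3 := hM3 s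
        refine ⟨⟨by omega, by omega⟩, hP, by omega⟩)
    refine le_trans (le_of_eq ?_) key
    refine sum_congr rfl fun y _ => ?_
    congr 2
    refine filter_congr fun s _ => ?_
    have e : (B + k₂ + 6 * (y : ℤ)) + (B + k₃ + 6 * u) + M * s =
      2 * B + k₂ + k₃ + 6 * u + 6 * 1 * y + M * s := by ring
    rw [e]
  · intro u hu
    have key := inj6 (S := 3 * T) hM (B + 2 * k₀ - k₂ - (M * T - M)) (-1) (Or.inr rfl) (GG τ N 2 (-1))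
      (WW3 τ N H 2 (-1) 1 ((2 * k₀ - k₂) % 3)) (by
        intro y hy s hs hP
        unfold WW3
        rw [mem_filter, mem_Icc]
        obtain ⟨g1, g2⟩ := hMs3 s hs
        have g3 := hM3 s
        refine ⟨⟨by omega, by omega⟩, hP, by omega⟩)
    refine le_trans (le_of_eq ?_) key
    refine sum_congr rfl fun y _ => ?_
    congr 2
    refine filter_congr fun s _ => ?_
    have e : 2 * (B + k₀) - (B + k₂ + 6 * (y : ℤ)) - M * (T - 1) + M * s =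
      B + 2 * k₀ - k₂ - (M * T - M) + 6 * (-1) * y + M * s := by ring
    rw [e]
  · intro v hv
    have key := inj6 (S := 3 * T) hM (B + 2 * k₁ - k₃ - (M * T - M)) 1 (Or.inl rfl) (GG τ N 2 (-1))
      (WW3 τ N H 2 (-1) 1 ((2 * k₁ - k₃) % 3)) (by
        intro y hy s hs hP
        unfold WW3
        rw [mem_filter, mem_Icc]
        obtain ⟨g1, g2⟩ := hMs3 s hs
        have g3 := hM3 s
        refine ⟨⟨by omega, by omega⟩, hP, by omega⟩)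
    refine le_trans (le_of_eq ?_) key
    refine sum_congr rfl fun y _ => ?_
    congr 2
    refine filter_congr fun s _ => ?_
    have e : 2 * (B + k₁ + 6 * (y : ℤ)) - (B + k₃ + 6 * y) - M * (T - 1) + M * s =
      B + 2 * k₁ - k₃ - (M * T - M) + 6 * 1 * y + M * s := by ring
    rw [e]
  · intro v hv
    have key := inj6 (S := 3 * T) hM (3 * B + 2 * k₀ + k₃) 1 (Or.inl rfl) (GG τ N 2 1)
      (WW3 τ N H 2 1 3 ((2 * k₀ + k₃) % 3)) (by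
        intro y hy s hs hP
        unfold WW3
        rw [mem_filter, mem_Icc]
        obtain ⟨g1, g2⟩ := hMs3 s hs
        have g3 := hM3 s
        refine ⟨⟨by omega, by omega⟩, hP, by omega⟩)
    refine le_trans (le_of_eq ?_) key
    refine sum_congr rfl fun y _ => ?_
    congr 2
    refine filter_congr fun s _ => ?_
    have e : 2 * (B + k₀) + (B + k₃ + 6 * (y : ℤ)) + M * s =
      3 * B + 2 * k₀ + k₃ + 6 * 1 * y + M * s := by ring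
    rw [e]
  · intro u hu
    have key := inj6 (S := 3 * T) hM (3 * B + 2 * k₁ + k₂ + 12 * u) 1 (Or.inl rfl) (GG τ N 2 1)
      (WW3 τ N H 2 1 3 ((2 * k₁ + k₂) % 3)) (by
        intro y hy s hs hP
        unfold WW3
        rw [mem_filter, mem_Icc]
        obtain ⟨g1, g2⟩ := hMs3 s hs
        have g3 := hM3 s
        refine ⟨⟨by omega, by omega⟩, hP, by omega⟩)
    refine le_trans (le_of_eq ?_) key
    refine sum_congr rfl fun y _ => ?_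
    congr 2
    refine filter_congr fun s _ => ?_
    have e : 2 * (B + k₁ + 6 * (u : ℤ)) + (B + k₂ + 6 * (y : ℤ)) + M * s =
      3 * B + 2 * k₁ + k₂ + 12 * u + 6 * 1 * y + M * s := by ring
    rw [e]

end Pool.Agent.K6.H45.RT
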