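import Pool.Agent.K6.H45.RT.AllB

/-!
# Goldbach's equation or one of two others: a positive proportion of every BOUNDED window

For every `ε > 0` there is `C` such that for EVERY large `N` and EVERY `H` with `C ≤ H ≤ N / 50` the
number of the integers `m` with `|m - 2 N| ≤ H` for which `p + q = m` has at least `N / (log N) ^ C`
solutions in primes, plus the number of those with `|m - N| ≤ H` for which `2 p - q = m` has that many,
plus the number of those with `|m - 3 N| ≤ H` for which `2 p + q = m` has that many, is at least
`(5 / 27 - ε) H`.

So for every large `N` one of the three equations has many solutions for `(5 / 81 - ε) H` of the `m` with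
`|m - 2 N| ≤ H`, `|m - N| ≤ H` or `|m - 3 N| ≤ H`, respectively, already for `H = C`. The starting results
for bounded windows have `N ^ (1 - η)` solutions for one `m` (`FiveEquations`, five equations) or for `H / 110` of
the `m` (`ThreeEquationsDensity`, these three equations). The result `ThreeEquationsRightOrder` of this folder has
`κ N / log² N` solutions, but needs windows of length `λ log N`.

Proof. The coloured Maynard-Tao theorem with the constant `18 / 5` for the classes of the forms `n + c₀`,
`-n + c₁`, `2 n + c₂`, `-2 n + c₃`, uniformly in the constant terms, with `N / (log N) ^ D` values of `n`;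
hypergraph containers give for all `c_i` near `N` (admissible modulo `6`) sets `A₀, …, A₃` of relative densities
with sum `> 10 / 9 - ε` in the multiples `M t`, `t < T`, almost all of whose pairs have many solutions; Pollard's
inequality for the sums `x + y`, `2 x - y`, `2 x + y`, and the mean over the `c_i` with five choices of the
residues modulo `6`, as for `ThreeEquationsRightOrder`.
-/

set_option autoImplicit false

namespace Pool.Agent.K6.H45.RT.BoundedWindows

open Filter Finset

open Classical in
/-- the number of the primes `p ≤ 2 N` such that `a p + b q = m` for some prime `q` -/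
noncomputable def solutions (a b : ℤ) (N : ℕ) (m : ℤ) : ℕ :=
  ((Icc 1 (2 * N)).filter (fun p : ℕ => p.Prime ∧ ∃ q : ℕ, q.Prime ∧ a * p + b * q = m)).card

open Classical in
/-- the number of the integers `m` with `|m - c N| ≤ H` for which `a p + b q = m` has at least `V`
solutions -/
noncomputable def good (V : ℝ) (N H : ℕ) (a b c : ℤ) : ℕ :=
  ((Icc (c * N - H) (c * N + H)).filter (fun m : ℤ => V ≤ (solutions a b N m : ℝ))).card

/-- **Three binary equations, in every bounded window.** -/
theorem result : ∀ ε : ℝ, 0 < ε → ∃ C : ℕ, ∀ᶠ N : ℕ in atTop, ∀ H : ℕ, C ≤ H → 50 * H ≤ N →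
    (5 / 27 - ε) * H ≤ (good (N / (Real.log N) ^ C) N H 1 1 2 : ℝ) +
      (good (N / (Real.log N) ^ C) N H 2 (-1) 1 : ℝ) + (good (N / (Real.log N) ^ C) N H 2 1 3 : ℝ) :=
  fun ε hε => Pool.Agent.K6.H45.RT.three_bounded ε hε

end Pool.Agent.K6.H45.RT.BoundedWindows
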