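import Pool.Agent.K6.H45.RT.Stm

/-! The four forms `n + c₀`, `-n + c₁`, `2 n + c₂`, `-2 n + c₃` and the equations. -/

set_option autoImplicit false

namespace Pool.Agent.K6.H45.RT

open Finset Filter Topology

open Classical in
/-- the number of the primes `p ≤ 2 N` such that `a p + b q = m` for a prime `q` -/
noncomputable def sol (a b : ℤ) (N : ℕ) (m : ℤ) : ℕ :=
  ((Icc 1 (2 * N)).filter (fun p : ℕ => p.Prime ∧ ∃ q : ℕ, q.Prime ∧ a * p + b * q = m)).card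

/-- all the forms are prime for at least `τ` of the `n` in the range -/
def Gt {k : ℕ} (τ : ℝ) (X : ℕ) (F : Fin k → ℤ × ℤ) : Prop :=
  τ ≤ (((IN X).filter (fun n : ℕ => ∀ i, (ev (F i) n).toNat.Prime)).card : ℝ)

open Classical in
theorem gdf_sol {τ : ℝ} {X N : ℕ} {a b m a1 c1 a2 c2 : ℤ} (h : Gt τ X ![(a1, c1), (a2, c2)])
    (ha : a1 ≠ 0) (h0 : a * a1 + b * a2 = 0) (hm : a * c1 + b * c2 = m)
    (hY : ∀ n : ℕ, n ∈ IN X → a1 * n + c1 ≤ 2 * N) :
    τ ≤ (sol a b N m : ℝ) := by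
  unfold Gt at h
  refine h.trans ?_
  rw [Nat.cast_le]
  unfold sol
  apply card_le_card_of_injOn (fun n : ℕ => (a1 * n + c1).toNat)
  · intro n hn
    rw [mem_coe, mem_filter] at hn
    have h1 : (a1 * n + c1).toNat.Prime := hn.2 0
    have h2 : (a2 * n + c2).toNat.Prime := hn.2 1
    have h3 := hY n hn.1
    have h4 := h1.pos
    have h5 := h2.pos
    rw [mem_coe, mem_filter, mem_Icc]
    refine ⟨⟨h4, by show (a1 * n + c1).toNat ≤ 2 * N; omega⟩, h1, _, h2, ?_⟩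
    show a * ((a1 * n + c1).toNat : ℤ) + b * ((a2 * n + c2).toNat : ℤ) = m
    have e1 : ((a1 * n + c1).toNat : ℤ) = a1 * n + c1 := by omega
    have e2 : ((a2 * n + c2).toNat : ℤ) = a2 * n + c2 := by omega
    rw [e1, e2, ← hm]
    linear_combination (n : ℤ) * h0
  · intro n hn n' hn' he
    rw [mem_coe, mem_filter] at hn hn'
    have h1 : (a1 * n + c1).toNat.Prime := hn.2 0
    have h1' : (a1 * n' + c1).toNat.Prime := hn'.2 0
    have h2 := h1.pos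
    have h2' := h1'.pos
    simp only at he
    have h3 : a1 * n + c1 = a1 * n' + c1 := by omega
    have h4 : a1 * n = a1 * n' := by linarith
    exact_mod_cast mul_left_cancel₀ ha h4

/-- comparison of the orders of magnitude -/
theorem convX {κ : ℝ} (hκ : 0 < κ) {X N : ℕ} (hX : 3 ≤ X) (h1 : X ≤ N) (h2 : N ≤ 4 * X) :
    κ / 4 * (N / (Real.log N) ^ 2) ≤ κ * (X / (Real.log X) ^ 2) := by
  have hXR : (3 : ℝ) ≤ X := by exact_mod_cast hX
  have hlX : 0 < Real.log X := Real.log_pos (by linarith)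
  have h1R : (X : ℝ) ≤ N := by exact_mod_cast h1
  have h2R : (N : ℝ) ≤ 4 * X := by exact_mod_cast h2
  have hlN : Real.log X ≤ Real.log N := Real.log_le_log (by linarith) h1R
  have h5 : (N : ℝ) / 4 / (Real.log N) ^ 2 ≤ X / (Real.log X) ^ 2 := by
    apply div_le_div₀ (by linarith) (by linarith) (by positivity)
    exact pow_le_pow_left₀ hlX.le hlN 2
  calc κ / 4 * (N / (Real.log N) ^ 2) = κ * ((N : ℝ) / 4 / (Real.log N) ^ 2) := by ring
    _ ≤ κ * (X / (Real.log X) ^ 2) := mul_le_mul_of_nonneg_left h5 hκ.le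

/-- a good residue class for every prime -/
theorem locF {k : ℕ} (f : Fin k → ℤ × ℤ) (hcop : ∀ i, IsCoprime (f i).1 (f i).2)
    (hloc : ∀ p : ℕ, p.Prime → p ≤ k → ∃ r : ℤ, ∀ i, ¬ (p : ℤ) ∣ (f i).1 * r + (f i).2)
    (p : ℕ) (hp : p.Prime) : ∃ r : ℤ, ∀ i, ¬ (p : ℤ) ∣ (f i).1 * r + (f i).2 := by
  classical
  by_cases hpk : p ≤ k
  · exact hloc p hp hpk
  · haveI := Fact.mk hp
    let b : Fin k → ZMod p := fun i => - (((f i).2 : ℤ) : ZMod p) / (((f i).1 : ℤ) : ZMod p)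
    have hcard : (univ.image b).card < (univ : Finset (ZMod p)).card := by
      rw [card_univ, ZMod.card]
      have h2 : (univ.image b).card ≤ k := card_image_le.trans (by simp)
      omega
    obtain ⟨z, _, hz⟩ := Finset.exists_mem_notMem_of_card_lt_card hcard
    have hzb : ∀ i, z ≠ b i := fun i h => hz (mem_image.2 ⟨i, mem_univ _, h.symm⟩)
    refine ⟨(z.val : ℤ), fun i h => ?_⟩
    by_cases hpa : (p : ℤ) ∣ (f i).1
    · have h1 : (p : ℤ) ∣ (f i).2 := (dvd_add_right (hpa.mul_right _)).1 h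
      have h2 := (hcop i).isUnit_of_dvd' hpa h1
      have h3 : p = 1 := by
        have := Int.isUnit_iff.1 h2
        omega
      exact hp.one_lt.ne' h3
    · rw [← ZMod.intCast_zmod_eq_zero_iff_dvd] at h
      push_cast at h
      rw [ZMod.natCast_zmod_val] at h
      have hal : (((f i).1 : ℤ) : ZMod p) ≠ 0 := by
        intro h1
        exact hpa ((ZMod.intCast_zmod_eq_zero_iff_dvd _ _).1 h1)
      apply hzb i
      show z = - (((f i).2 : ℤ) : ZMod p) / (((f i).1 : ℤ) : ZMod p)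
      rw [eq_div_iff hal]
      linear_combination h

/-- the four forms -/
def fT (c₀ c₁ c₂ c₃ : ℤ) : Fin 4 → ℤ × ℤ := ![(1, c₀), (-1, c₁), (2, c₂), (-2, c₃)]

/-- the local condition -/
theorem locT (c₀ c₁ c₂ c₃ : ℤ) (h0 : c₀ % 2 = 1) (h1 : c₁ % 2 = 1) (h2 : c₂ % 2 = 1) (h3 : c₃ % 2 = 1)
    (hr : ∃ r : ℤ, ¬ 3 ∣ r + c₀ ∧ ¬ 3 ∣ -r + c₁ ∧ ¬ 3 ∣ 2 * r + c₂ ∧ ¬ 3 ∣ -2 * r + c₃)
    (p : ℕ) (hp : p.Prime) :
    ∃ r : ℤ, ∀ i, ¬ (p : ℤ) ∣ (fT c₀ c₁ c₂ c₃ i).1 * r + (fT c₀ c₁ c₂ c₃ i).2 := by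
  have hodd : ∀ c : ℤ, c % 2 = 1 → IsCoprime (2 : ℤ) c := by
    intro c hc
    exact ⟨-(c / 2), 1, by omega⟩
  refine locF (fT c₀ c₁ c₂ c₃) ?_ ?_ p hp
  · intro i
    fin_cases i
    · exact isCoprime_one_left
    · exact isCoprime_one_left.neg_left
    · exact hodd _ h2
    · exact (hodd _ h3).neg_left
  · intro p hp hp4
    have h2p := hp.two_le
    have h4 : p ≠ 4 := by
      rintro rfl
      exact absurd hp (by norm_num)
    have : p = 2 ∨ p = 3 := by omega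
    rcases this with rfl | rfl
    · refine ⟨0, fun i => ?_⟩
      fin_cases i
      · show ¬ ((2 : ℕ) : ℤ) ∣ 1 * 0 + c₀
        omega
      · show ¬ ((2 : ℕ) : ℤ) ∣ -1 * 0 + c₁
        omega
      · show ¬ ((2 : ℕ) : ℤ) ∣ 2 * 0 + c₂
        omega
      · show ¬ ((2 : ℕ) : ℤ) ∣ -2 * 0 + c₃
        omega
    · obtain ⟨r, k0, k1, k2, k3⟩ := hr
      refine ⟨r, fun i => ?_⟩
      fin_cases i
      · show ¬ ((3 : ℕ) : ℤ) ∣ 1 * r + c₀
        rw [one_mul]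
        exact k0
      · show ¬ ((3 : ℕ) : ℤ) ∣ -1 * r + c₁
        rw [neg_one_mul]
        exact k1
      · exact k2
      · exact k3

/-- sizes -/
theorem afm_gen {X N : ℕ} (hX : X = 8 * N / 9) (hN : 1000 ≤ N) {a c : ℤ}
    (ha : a = 1 ∨ a = -1 ∨ ((a = 2 ∨ a = -2) ∧ c % 2 = 1)) (hc1 : 99 * (N : ℤ) ≤ 100 * c)
    (hc2 : 100 * c ≤ 101 * (N : ℤ)) : Afm X (a, c) := by
  have hXz : 9 * (X : ℤ) ≤ 8 * N := by omega
  have hXz2 : 8 * (N : ℤ) ≤ 9 * X + 9 := by omega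
  refine ⟨ha, ?_, ?_⟩
  · show 5 * |c| ≤ 6 * (X : ℤ)
    rw [abs_of_nonneg (by omega)]
    omega
  · intro t ht1 ht2
    have hXr : 9 * (X : ℝ) ≤ 8 * N := by exact_mod_cast hXz
    have hcr : 99 * (N : ℝ) ≤ 100 * (c : ℝ) := by exact_mod_cast hc1
    have hNr : (1000 : ℝ) ≤ N := by exact_mod_cast hN
    have hX0 : (0 : ℝ) ≤ X := Nat.cast_nonneg _
    show (X : ℝ) / 20 ≤ ((a : ℤ) : ℝ) * t + ((c : ℤ) : ℝ)
    rcases ha with h | h | ⟨h | h, -⟩ <;> rw [h] <;> push_cast <;> linarith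

end Pool.Agent.K6.H45.RT
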