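import Pool.Agent.K6.H45.RT.Clq
import Pool.Agent.K6.H45.RT.Eqn

/-! Cliques for windows of bounded length, with `N / (log N) ^ D` prime values. -/

set_option autoImplicit false

namespace Pool.Agent.K6.H45.RT

open Finset Filter Topology
open Pool.Agent.N646.RO (S_WC HitM badU)

open Classical in
/-- one configuration: `T` classes with `K` forms each -/
def S_HITB : Prop := ∀ T M : ℕ, 1 ≤ T → (18 / 5 : ℝ) * M < T → ∃ K : ℕ, 1 ≤ K ∧ ∃ c : ℝ, 0 < c ∧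
  ∀ᶠ N : ℕ in atTop, ∀ f : Fin T × Fin K → ℤ × ℤ, Function.Injective f → (∀ x, Afm N (f x)) →
    (∀ p : ℕ, p.Prime → p ≤ T * K → ∃ r : ℤ, ∀ x, ¬ (p : ℤ) ∣ (f x).1 * r + (f x).2) →
    ∃ (S : Finset (Fin T)) (σ : Fin T → Fin K), M + 1 ≤ S.card ∧
      c * (N / (Real.log N) ^ (T * K + 1)) ≤ (((IN N).filter (fun n : ℕ =>
        ∀ g ∈ S, (ev (f (g, σ g)) n).toNat.Prime)).card : ℝ)

open Classical in
theorem hitM_inj {lam : ℝ} {α : Type} [DecidableEq α] {Kf : ℕ → ℕ} {M : ℕ} {δ' : ℝ} {V : Finset α}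
    {G : Finset α → Prop} (hδ : 0 ≤ δ') (h : ∀ T' : ℕ, 1 ≤ T' → T' ≤ M →
      ∀ H : Fin T' × Fin (Kf T') → α, (∀ x, H x ∈ V) → Function.Injective H →
        ∃ (S : Finset (Fin T')) (c : Fin T' → Fin (Kf T')),
          (T' : ℝ) ≤ lam * (S.card : ℝ) ∧ G (S.image (fun g => H (g, c g)))) :
    HitM lam Kf M δ' V G := by
  intro T' h1 h2
  have h0 : (0 : ℝ) ≤ δ' * (V.card : ℝ) ^ (T' * Kf T') := by positivity
  refine le_trans ?_ h0
  rw [Nat.cast_nonpos, card_eq_zero]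
  apply eq_empty_of_forall_notMem
  intro H hH'
  rw [mem_filter, Fintype.mem_piFinset] at hH'
  exact hH'.2.2 (h T' h1 h2 H hH'.1 hH'.2.1)

open Classical in
/-- **cliques in bounded windows** -/
theorem clqB (hWC : S_WC) (hH : S_HITB) (m : ℕ) (hm : 1 ≤ m) (ε : ℝ) (hε : 0 < ε) :
    ∃ M₀ n₁ D : ℕ, 1 ≤ M₀ ∧ 6 ∣ M₀ ∧ ∃ c : ℝ, 0 < c ∧ ∀ᶠ N : ℕ in atTop, ∀ T₁ : ℕ, n₁ ≤ T₁ →
      ∀ f : Fin m → ℤ × ℤ, (∀ i j, (f i).1 = (f j).1 → i = j) →
      (∀ i, ∀ t ≤ T₁, Afm N (sh (f i) (M₀ * t))) →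
      (∀ p : ℕ, p.Prime → p ∣ M₀ → ∃ r : ℤ, ∀ i, ¬ (p : ℤ) ∣ (f i).1 * r + (f i).2) →
      ∃ A : Fin m → Finset ℕ, (∀ i, A i ⊆ range T₁) ∧
        (5 / 18 - ε) * (m * T₁) ≤ ((∑ i, (A i).card : ℕ) : ℝ) ∧
        ∀ i j, (((A i ×ˢ A j).filter (fun x => (i, x.1) ≠ (j, x.2) ∧
          ¬ Gt (c * (N / (Real.log N) ^ D)) N ![sh (f i) (M₀ * x.1), sh (f j) (M₀ * x.2)])).card : ℝ) ≤
            ε * (T₁ : ℝ) ^ 2 := by
  have hmR : (1 : ℝ) ≤ m := by exact_mod_cast hm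
  have hex : ∀ T : ℕ, ∃ M' K : ℕ, ∃ c : ℝ, 0 < c ∧ (1 ≤ T → (T : ℝ) ≤ (18 / 5) * ((M' + 1 : ℕ) : ℝ) ∧
    1 ≤ K ∧ ∀ᶠ N : ℕ in atTop, ∀ f : Fin T × Fin K → ℤ × ℤ, Function.Injective f →
      (∀ x, Afm N (f x)) →
      (∀ p : ℕ, p.Prime → p ≤ T * K → ∃ r : ℤ, ∀ x, ¬ (p : ℤ) ∣ (f x).1 * r + (f x).2) →
      ∃ (S : Finset (Fin T)) (σ : Fin T → Fin K), M' + 1 ≤ S.card ∧
        c * (N / (Real.log N) ^ (T * K + 1)) ≤ (((IN N).filter (fun n : ℕ =>
          ∀ g ∈ S, (ev (f (g, σ g)) n).toNat.Prime)).card : ℝ)) := by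
    intro T
    by_cases hT : 1 ≤ T
    · obtain ⟨M', h1, h2⟩ := ceilM T hT
      obtain ⟨K, hK, c, hc, h3⟩ := hH T M' hT h1
      exact ⟨M', K, c, hc, fun _ => ⟨h2, hK, h3⟩⟩
    · exact ⟨0, 0, 1, one_pos, fun h => absurd h hT⟩
  choose Mf Kf cf hcf hf using hex
  set ε' : ℝ := ε / m ^ 2 with hε'
  have hε'0 : 0 < ε' := by positivity
  have hε'1 : ε' ≤ ε := by
    rw [hε', div_le_iff₀ (by positivity)]
    nlinarith [pow_le_pow_left₀ (by norm_num : (0:ℝ) ≤ 1) hmR 2]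
  obtain ⟨M, n₀, δ', hδ', hWC'⟩ := hWC (18 / 5) (by norm_num) 1 ε' hε'0 Kf
  obtain ⟨M₀, hM₀1, h6, hdvd⟩ : ∃ M₀ : ℕ, 1 ≤ M₀ ∧ 6 ∣ M₀ ∧
      ∀ T', T' ≤ M → ∀ p : ℕ, p.Prime → p ≤ T' * Kf T' → p ∣ M₀ := by
    refine ⟨(∑ T' ∈ range (M + 1), T' * Kf T' + 3).factorial, Nat.factorial_pos _, ?_, ?_⟩
    · exact Nat.factorial_dvd_factorial (m := 3) (Nat.le_add_left _ _)
    · intro T' hT' p hp hpT
      apply Nat.dvd_factorial hp.pos (hpT.trans _)
      refine (Finset.single_le_sum (f := fun T' => T' * Kf T') (fun _ _ => Nat.zero_le _)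
        (mem_range.2 (by omega : T' < M + 1))).trans (Nat.le_add_right _ _)
  set D : ℕ := ∑ T' ∈ range (M + 1), (T' * Kf T' + 1) with hD
  obtain ⟨c, hc, hcle⟩ := min_pos' cf hcf M
  refine ⟨M₀, n₀, D, hM₀1, h6, c, hc, ?_⟩
  have hev : ∀ᶠ N : ℕ in atTop, ∀ T' ∈ Icc 1 M, ∀ f : Fin T' × Fin (Kf T') → ℤ × ℤ,
      Function.Injective f → (∀ x, Afm N (f x)) →
      (∀ p : ℕ, p.Prime → p ≤ T' * Kf T' → ∃ r : ℤ, ∀ x, ¬ (p : ℤ) ∣ (f x).1 * r + (f x).2) →
      ∃ (S : Finset (Fin T')) (σ : Fin T' → Fin (Kf T')), Mf T' + 1 ≤ S.card ∧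
        cf T' * (N / (Real.log N) ^ (T' * Kf T' + 1)) ≤ (((IN N).filter (fun n : ℕ =>
          ∀ g ∈ S, (ev (f (g, σ g)) n).toNat.Prime)).card : ℝ) := by
    rw [Filter.eventually_all_finset]
    intro T' hT'
    obtain ⟨h1, h2⟩ := mem_Icc.1 hT'
    exact (hf T' h1).2.2
  have hlog : Tendsto (fun N : ℕ => Real.log (N : ℝ)) atTop atTop :=
    Real.tendsto_log_atTop.comp tendsto_natCast_atTop_atTop
  filter_upwards [hev, hlog.eventually_ge_atTop 1] with N hx hL1 T₁ hT₁ f hfinj hfA hfp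
  set V : Finset (Fin m × ℕ) := univ ×ˢ range T₁ with hV
  have hVc : V.card = m * T₁ := by
    rw [hV, card_product, card_univ, Fintype.card_fin, card_range]
  have hVcR : (V.card : ℝ) = m * T₁ := by rw [hVc]; push_cast; ring
  set fm : Fin m × ℕ → ℤ × ℤ := fun v => sh (f v.1) (M₀ * v.2) with hfm
  have hfminj : Function.Injective fm := by
    rintro ⟨i, t⟩ ⟨j, s⟩ h
    simp only [hfm, sh, Prod.mk.injEq] at h
    obtain ⟨h1, h2⟩ := h
    have h3 := hfinj i j h1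
    subst h3
    have h4 : ((M₀ * t : ℕ) : ℤ) = ((M₀ * s : ℕ) : ℤ) := by linarith
    have h5 : M₀ * t = M₀ * s := by exact_mod_cast h4
    rw [Nat.eq_of_mul_eq_mul_left hM₀1 h5]
  set τ : ℝ := c * (N / (Real.log N) ^ D) with hτ
  set G : Finset (Fin m × ℕ) → Prop := fun F' => ∀ v ∈ F', ∀ w ∈ F', v ≠ w →
    Gt τ N ![fm v, fm w] with hG
  have hGh : ∀ F F' : Finset (Fin m × ℕ), F' ⊆ F → G F → G F' := fun F F' hF hGF v hv w hw hvw =>
    hGF v (hF hv) w (hF hw) hvw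
  have hHit : HitM (18 / 5) Kf M δ' V G := by
    refine hitM_inj hδ'.le fun T' h1 h2 H hH' hinj => ?_
    obtain ⟨S, σ, hS, hcard⟩ := hx T' (mem_Icc.2 ⟨h1, h2⟩) (fun x => fm (H x)) (hfminj.comp hinj)
      (fun x => hfA _ _ (mem_range.1 (mem_product.1 (hH' x)).2).le) (fun p hp hpT => by
        obtain ⟨r, hr⟩ := hfp p hp (hdvd T' h2 p hp hpT)
        refine ⟨r, fun x hd => hr (H x).1 ?_⟩
        have hpM : (p : ℤ) ∣ ((M₀ * (H x).2 : ℕ) : ℤ) := by
          exact_mod_cast Dvd.dvd.mul_right (hdvd T' h2 p hp hpT) _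
        have e : (f (H x).1).1 * r + (f (H x).1).2 =
            ((fm (H x)).1 * r + (fm (H x)).2) - ((M₀ * (H x).2 : ℕ) : ℤ) := by
          simp only [hfm, sh]
          ring
        rw [e]
        exact dvd_sub hd hpM)
    refine ⟨S, σ, ?_, ?_⟩
    · have h3 := (hf T' h1).1
      have h4 : ((Mf T' + 1 : ℕ) : ℝ) ≤ (S.card : ℝ) := by exact_mod_cast hS
      calc (T' : ℝ) ≤ (18 / 5) * ((Mf T' + 1 : ℕ) : ℝ) := h3
        _ ≤ 18 / 5 * (S.card : ℝ) := mul_le_mul_of_nonneg_left h4 (by norm_num)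
    · intro v hv w hw hvw
      obtain ⟨g, hg, rfl⟩ := mem_image.1 hv
      obtain ⟨g', hg', rfl⟩ := mem_image.1 hw
      unfold Gt
      have hτle : τ ≤ cf T' * (N / (Real.log N) ^ (T' * Kf T' + 1)) := by
        rw [hτ]
        refine mul_le_mul (hcle T' h2) ?_ (by positivity) (hcf T').le
        refine div_le_div_of_nonneg_left (Nat.cast_nonneg _) (by positivity) ?_
        refine pow_le_pow_right₀ hL1 ?_
        rw [hD]
        exact Finset.single_le_sum (f := fun T' => T' * Kf T' + 1) (fun _ _ => Nat.zero_le _)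
          (mem_range.2 (by omega : T' < M + 1))
      refine (hτle.trans hcard).trans ?_
      rw [Nat.cast_le]
      apply card_le_card
      intro n hn
      obtain ⟨hn1, hn2⟩ := mem_filter.1 hn
      refine mem_filter.2 ⟨hn1, fun i => ?_⟩
      fin_cases i
      · exact hn2 g hg
      · exact hn2 g' hg'
  have hn0V : n₀ ≤ V.card := by
    rw [hVc]
    exact hT₁.trans (Nat.le_mul_of_pos_left _ hm)
  obtain ⟨A, hA1, hA2, hA3⟩ := hWC' (Fin m × ℕ) V G hn0V hGh hHit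
  rw [hVcR] at hA2 hA3
  refine ⟨fun i => (range T₁).filter (fun y => (i, y) ∈ A), fun i => filter_subset _ _, ?_, ?_⟩
  · have hAc : A.card = ∑ i : Fin m, ((range T₁).filter (fun y => (i, y) ∈ A)).card := by
      rw [card_eq_sum_card_fiberwise (f := Prod.fst) (t := univ) (fun _ _ => mem_univ _)]
      refine sum_congr rfl fun i _ => ?_
      refine card_bij' (fun v _ => v.2) (fun y _ => (i, y)) ?_ ?_ ?_ ?_
      · intro v hv
        rw [mem_filter] at hv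
        have h3 := (mem_product.1 (hA1 hv.1)).2
        rw [mem_filter]
        refine ⟨h3, ?_⟩
        rw [← hv.2]
        exact hv.1
      · intro y hy
        rw [mem_filter] at hy
        rw [mem_filter]
        exact ⟨hy.2, rfl⟩
      · intro v hv
        exact Prod.ext (mem_filter.1 hv).2.symm rfl
      · intro y _
        rfl
    rw [← hAc]
    refine le_trans ?_ hA2
    apply mul_le_mul_of_nonneg_right _ (by positivity)
    norm_num
    linarith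
  · intro i j
    have h3 : (((((range T₁).filter (fun y => (i, y) ∈ A)) ×ˢ
        ((range T₁).filter (fun y => (j, y) ∈ A))).filter (fun x => (i, x.1) ≠ (j, x.2) ∧
          ¬ Gt τ N ![sh (f i) (M₀ * x.1), sh (f j) (M₀ * x.2)])).card : ℝ) ≤
        ((badU 1 A G).card : ℝ) := by
      rw [Nat.cast_le]
      apply card_le_card_of_injOn (fun x => ![(i, x.1), (j, x.2)])
      · intro x hx'
        rw [mem_coe, mem_filter, mem_product, mem_filter, mem_filter] at hx'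
        obtain ⟨⟨⟨hx1, hx2⟩, hx3, hx4⟩, hx5, hx6⟩ := hx'
        rw [mem_coe]
        refine mem_badU 1 A G _ (fun q => ?_) ?_ (fun hGG => hx6 ?_)
        · fin_cases q
          · exact hx2
          · exact hx4
        · exact inj2 hx5
        · have h4 := hGG (i, x.1) (mem_image.2 ⟨0, mem_univ _, rfl⟩) (j, x.2)
            (mem_image.2 ⟨1, mem_univ _, rfl⟩) hx5
          exact h4
      · intro x _ x' _ hxx
        have e0 := congrFun hxx 0
        have e1 := congrFun hxx 1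
        simp only [Matrix.cons_val_zero, Matrix.cons_val_one, Prod.mk.injEq, true_and] at e0 e1
        exact Prod.ext e0 e1
    refine h3.trans (hA3.trans (le_of_eq ?_))
    rw [hε']
    have : (m : ℝ) ≠ 0 := by positivity
    field_simp
    ring

end Pool.Agent.K6.H45.RT
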