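import Pool.Agent.K6.H45.RT.Alt

/-! Three binary equations with the right order of magnitude: assembly. -/

set_option autoImplicit false

namespace Pool.Agent.K6.H45.RT

open Finset Filter Topology
open Pool.Agent.N646.RG (S_POL)

open Classical in
/-- the good `m` in the window -/
noncomputable def WW (τ : ℝ) (N H : ℕ) (a b e : ℤ) : Finset ℤ :=
  (Icc (e * N - H) (e * N + H)).filter (fun m : ℤ => GG τ N a b m)

theorem WW_sum (τ : ℝ) (N H : ℕ) (a b e : ℤ) :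
    ((WW3 τ N H a b e 0).card : ℝ) + (WW3 τ N H a b e 1).card + (WW3 τ N H a b e 2).card ≤
      ((WW τ N H a b e).card : ℝ) := by
  classical
  have h5 : (WW3 τ N H a b e 0).card + (WW3 τ N H a b e 1).card + (WW3 τ N H a b e 2).card ≤
      (WW τ N H a b e).card := by
    rw [← card_union_of_disjoint, ← card_union_of_disjoint]
    · apply card_le_card
      intro m hm
      unfold WW
      rw [mem_union, mem_union] at hm
      unfold WW3 at hm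
      rw [mem_filter, mem_filter, mem_filter] at hm
      rw [mem_filter]
      rcases hm with (hm | hm) | hm <;> exact ⟨hm.1, hm.2.1⟩
    · rw [disjoint_left]
      intro m hm hm'
      rw [mem_union] at hm
      unfold WW3 at hm hm'
      rw [mem_filter, mem_filter] at hm
      rw [mem_filter] at hm'
      rcases hm with hm | hm
      · have := hm.2.2
        have := hm'.2.2
        omega
      · have := hm.2.2
        have := hm'.2.2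
        omega
    · rw [disjoint_left]
      intro m hm hm'
      unfold WW3 at hm hm'
      rw [mem_filter] at hm hm'
      have := hm.2.2
      have := hm'.2.2
      omega
  exact_mod_cast h5

open Classical in
/-- the sum over the three equations, for one `N` and one `H`, with any threshold -/
theorem three {ε ε' ε₁ τ : ℝ} {T₀ M q N H : ℕ} (hε : 0 < ε) (hε'0 : 0 < ε') (hε'1 : ε' ≤ ε / 80)
    (hε'2 : ε' ≤ 1 / 2) (hε₁ : 0 < ε₁)
    (hcomb : ∀ T : ℕ, T₀ ≤ T →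
    ∀ A₀ A₁ A₂ A₃ : Finset ℕ, A₀ ⊆ range T → A₁ ⊆ range T → A₂ ⊆ range T → A₃ ⊆ range T →
    (10 / 9 - ε₁) * T ≤ (A₀.card : ℝ) + A₁.card + A₂.card + A₃.card →
    ∀ E₁ E₂ E₃ E₄ E₅ E₆ : ℕ → Prop,
    (((A₀ ×ˢ A₁).filter (fun x => ¬ E₁ (x.1 + x.2))).card : ℝ) ≤ ε₁ * (T : ℝ) ^ 2 →
    (((A₂ ×ˢ A₃).filter (fun x => ¬ E₂ (x.1 + x.2))).card : ℝ) ≤ ε₁ * (T : ℝ) ^ 2 →
    (((A₀ ×ˢ A₂).filter (fun x => ¬ E₃ (2 * x.1 + (T - 1 - x.2)))).card : ℝ) ≤ ε₁ * (T : ℝ) ^ 2 →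
    (((A₁ ×ˢ A₃).filter (fun x => ¬ E₄ (2 * x.1 + (T - 1 - x.2)))).card : ℝ) ≤ ε₁ * (T : ℝ) ^ 2 →
    (((A₀ ×ˢ A₃).filter (fun x => ¬ E₅ (2 * x.1 + x.2))).card : ℝ) ≤ ε₁ * (T : ℝ) ^ 2 →
    (((A₁ ×ˢ A₂).filter (fun x => ¬ E₆ (2 * x.1 + x.2))).card : ℝ) ≤ ε₁ * (T : ℝ) ^ 2 →
    Six T ((10 / 9 - ε') * T) E₁ E₂ E₃ E₄ E₅ E₆)
    (hMq : M = 6 * q) (hq : 0 < q) (hH100 : 100 * M + 100 ≤ H) (hHT : 3 * M * (T₀ + 3) ≤ H)
    (hHε : 100 * ((M : ℝ) + 20) ≤ ε * H) (hN : 1000 * M + 1000 ≤ N) (hH2 : 50 * H ≤ N)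
    (hcl : ∀ T : ℕ, (H : ℝ) ≤ T * (3 * M) → 75 * (M * T) ≤ N → T₀ ≤ T →
      ∀ f : Fin 4 → ℤ × ℤ, (∀ i j, (f i).1 = (f j).1 → i = j) →
      (∀ i, ∀ t ≤ T, Afm (8 * N / 9) (sh (f i) (M * t))) →
      (∀ p : ℕ, p.Prime → p ∣ M → ∃ r : ℤ, ∀ i, ¬ (p : ℤ) ∣ (f i).1 * r + (f i).2) →
      ∃ A : Fin 4 → Finset ℕ, (∀ i, A i ⊆ range T) ∧
        (5 / 18 - ε₁ / 4) * ((4 : ℕ) * T) ≤ ((∑ i, (A i).card : ℕ) : ℝ) ∧
        ∀ i j, (((A i ×ˢ A j).filter (fun x => (i, x.1) ≠ (j, x.2) ∧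
          ¬ Gt τ (8 * N / 9) ![sh (f i) (M * x.1), sh (f j) (M * x.2)])).card : ℝ) ≤
            ε₁ / 4 * (T : ℝ) ^ 2) :
      (5 / 27 - ε) * H ≤ ((WW τ N H 1 1 2).card : ℝ) + ((WW τ N H 2 (-1) 1).card : ℝ) +
        ((WW τ N H 2 1 3).card : ℝ) := by
  have hM : 1 ≤ M := by omega
  have hMR : (1 : ℝ) ≤ M := by exact_mod_cast hM
  have h3M : 0 < 3 * M := by omega
  set Y : ℕ := 2 * H - 20 * M - 100 with hY
  have hYH : Y + 20 * M + 100 = 2 * H := by omega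
  set T : ℕ := Y / (3 * M) with hT
  have hd1 : 3 * M * T ≤ Y := Nat.mul_div_le _ _
  have hd2 : Y < 3 * M * (T + 1) := Nat.lt_mul_div_succ Y h3M
  have hd3 : T₀ + 3 ≤ T := by
    rw [hT, Nat.le_div_iff_mul_le h3M, mul_comm]
    omega
  have hTa : 3 * (M * T) + 20 * M + 100 ≤ 2 * H := by
    have : 3 * M * T = 3 * (M * T) := by ring
    omega
  have hTb : 2 * H ≤ 3 * (M * T) + 23 * M + 100 := by
    have : 3 * M * (T + 1) = 3 * (M * T) + 3 * M := by ring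
    omega
  have hTbR : 2 * (H : ℝ) ≤ 3 * (M * T) + 23 * M + 100 := by exact_mod_cast hTb
  have hTaR : 3 * ((M : ℝ) * T) + 20 * M + 100 ≤ 2 * H := by exact_mod_cast hTa
  have hTT₀ : T₀ ≤ T := by omega
  have hTH : (H : ℝ) ≤ T * (3 * M) := by
    have h4 : 100 * (M : ℝ) + 100 ≤ H := by exact_mod_cast hH100
    linarith
  have hcl' := hcl T hTH (by omega) hTT₀
  set B : ℤ := 6 * ((2 * (N : ℤ) - M * T) / 12) with hB
  have hB6 : B % 6 = 0 := by omega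
  have hB1 : 2 * B + M * T ≤ 2 * N := by omega
  have hB2 : 2 * (N : ℤ) ≤ 2 * B + M * T + 12 := by omega
  have hMTz : 75 * ((M : ℤ) * T) ≤ N := by
    have : 75 * (M * T) ≤ N := by omega
    exact_mod_cast this
  have hMz : (M : ℤ) = 6 * q := by exact_mod_cast hMq
  have hNMz : 1000 * (M : ℤ) + 1000 ≤ N := by exact_mod_cast hN
  have hMT0 : 0 ≤ (M : ℤ) * T := by positivity
  have key : ∀ k₀ k₁ k₂ k₃ : ℤ, 0 ≤ k₀ → k₀ ≤ 5 → 0 ≤ k₁ → k₁ ≤ 5 → 0 ≤ k₂ → k₂ ≤ 5 → 0 ≤ k₃ →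
      k₃ ≤ 5 → k₀ % 2 = 1 → k₁ % 2 = 1 → k₂ % 2 = 1 → k₃ % 2 = 1 →
      (∃ r : ℤ, ¬ 3 ∣ r + k₀ ∧ ¬ 3 ∣ -r + k₁ ∧ ¬ 3 ∣ 2 * r + k₂ ∧ ¬ 3 ∣ -2 * r + k₃) →
      q * ((10 / 9 - ε') * T) ≤
      ((WW3 τ N H 1 1 2 ((k₀ + k₁) % 3)).card : ℝ) +
        (WW3 τ N H 1 1 2 ((k₂ + k₃) % 3)).card +
      (((WW3 τ N H 2 (-1) 1 ((2 * k₀ - k₂) % 3)).card : ℝ) +
        (WW3 τ N H 2 (-1) 1 ((2 * k₁ - k₃) % 3)).card) +
      (((WW3 τ N H 2 1 3 ((2 * k₀ + k₃) % 3)).card : ℝ) +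
        (WW3 τ N H 2 1 3 ((2 * k₁ + k₂) % 3)).card) := by
    intro k₀ k₁ k₂ k₃ g0 g0' g1 g1' g2 g2' g3 g3' o0 o1 o2 o3 hr
    refine avgT hq hMq B k₀ k₁ k₂ k₃ hB6 hB1 hB2 g0 g0' g1 g1' g2 g2' g3 g3' hTa ?_
    intro u hu v hv
    refine altT (ε₁ := ε₁) rfl (by omega) (by omega) (by omega) (by omega) (by omega) (by omega) ?_
      (by omega) (by omega) (by omega) (by omega) (by omega) (by omega) (by omega) (by omega)
      (fun f hf0 hf1 hf2 => hcl' f hf0 hf1 hf2) hε₁ ?_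
    · obtain ⟨r, r0, r1, r2, r3⟩ := hr
      refine ⟨r, ?_, ?_, ?_, ?_⟩
      · omega
      · omega
      · omega
      · omega
    · intro A₀ A₁ A₂ A₃ a0 a1 a2 a3 htot E₁ E₂ E₃ E₄ E₅ E₆ b1 b2 b3 b4 b5 b6
      exact hcomb T hTT₀ A₀ A₁ A₂ A₃ a0 a1 a2 a3 htot E₁ E₂ E₃ E₄ E₅ E₆ b1 b2 b3 b4 b5 b6
  have p1 := key 3 3 1 5 (by norm_num) (by norm_num) (by norm_num) (by norm_num) (by norm_num)
    (by norm_num) (by norm_num) (by norm_num) (by norm_num) (by norm_num) (by norm_num) (by norm_num)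
    ⟨2, by omega, by omega, by omega, by omega⟩
  have p2 := key 3 1 3 5 (by norm_num) (by norm_num) (by norm_num) (by norm_num) (by norm_num)
    (by norm_num) (by norm_num) (by norm_num) (by norm_num) (by norm_num) (by norm_num) (by norm_num)
    ⟨2, by omega, by omega, by omega, by omega⟩
  have p3 := key 3 5 3 1 (by norm_num) (by norm_num) (by norm_num) (by norm_num) (by norm_num)
    (by norm_num) (by norm_num) (by norm_num) (by norm_num) (by norm_num) (by norm_num) (by norm_num)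
    ⟨1, by omega, by omega, by omega, by omega⟩
  have p4 := key 3 1 1 3 (by norm_num) (by norm_num) (by norm_num) (by norm_num) (by norm_num)
    (by norm_num) (by norm_num) (by norm_num) (by norm_num) (by norm_num) (by norm_num) (by norm_num)
    ⟨2, by omega, by omega, by omega, by omega⟩
  have p5 := key 3 5 5 3 (by norm_num) (by norm_num) (by norm_num) (by norm_num) (by norm_num)
    (by norm_num) (by norm_num) (by norm_num) (by norm_num) (by norm_num) (by norm_num) (by norm_num)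
    ⟨1, by omega, by omega, by omega, by omega⟩
  norm_num at p1 p2 p3 p4 p5
  have w1 := WW_sum τ N H 1 1 2
  have w2 := WW_sum τ N H 2 (-1) 1
  have w3 := WW_sum τ N H 2 1 3
  have hmain : 6 * (q * ((10 / 9 - ε') * T)) ≤ 4 * (((WW τ N H 1 1 2).card : ℝ) +
      ((WW τ N H 2 (-1) 1).card : ℝ) + ((WW τ N H 2 1 3).card : ℝ)) := by
    linarith
  have hqM : (6 : ℝ) * q = M := by
    rw [hMq]
    push_cast
    ring
  have e1 : 6 * ((q : ℝ) * ((10 / 9 - ε') * T)) = (10 / 9 - ε') * (M * T) := by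
    rw [← hqM]
    ring
  rw [e1] at hmain
  have h1 : (10 / 9 - ε') * (2 * (H : ℝ) - 23 * M - 100) ≤ (10 / 9 - ε') * (3 * (M * T)) :=
    mul_le_mul_of_nonneg_left (by linarith) (by linarith)
  have h2 : ε' * H ≤ ε / 80 * H := mul_le_mul_of_nonneg_right hε'1 (Nat.cast_nonneg _)
  have h3 : 0 ≤ ε' * M := by positivity
  nlinarith

open Classical in
theorem mainT
    (hclq : ∀ ε : ℝ, 0 < ε → ∃ M₀ : ℕ,
      1 ≤ M₀ ∧ 6 ∣ M₀ ∧ ∀ lam : ℝ, 0 < lam → ∃ κ : ℝ, 0 < κ ∧ ∀ᶠ N : ℕ in atTop, ∀ T₁ : ℕ,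
      lam * Real.log N ≤ T₁ → 2 * (M₀ * T₁) ≤ N → ∀ f : Fin 4 → ℤ × ℤ,
      (∀ i, ∀ t ≤ T₁, Afm N (sh (f i) (M₀ * t))) →
      (∀ p : ℕ, p.Prime → p ∣ M₀ → ∃ r : ℤ, ∀ i, ¬ (p : ℤ) ∣ (f i).1 * r + (f i).2) →
      ∃ A : Fin 4 → Finset ℕ, (∀ i, A i ⊆ range T₁) ∧
        (5 / 18 - ε) * ((4 : ℕ) * T₁) ≤ ((∑ i, (A i).card : ℕ) : ℝ) ∧
        ∀ i j, (((A i ×ˢ A j).filter (fun x => (i, x.1) ≠ (j, x.2) ∧
          ¬ Gdf κ N ![sh (f i) (M₀ * x.1), sh (f j) (M₀ * x.2)])).card : ℝ) ≤ ε * (T₁ : ℝ) ^ 2)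
    (hPOL : S_POL) (ε lam : ℝ) (hε : 0 < ε) (hlam : 0 < lam) :
    ∃ κ : ℝ, 0 < κ ∧ ∀ᶠ N : ℕ in atTop, ∀ H : ℕ, lam * Real.log N ≤ H → 50 * H ≤ N →
      (5 / 27 - ε) * H ≤ ((WW (κ * (N / (Real.log N) ^ 2)) N H 1 1 2).card : ℝ) +
        ((WW (κ * (N / (Real.log N) ^ 2)) N H 2 (-1) 1).card : ℝ) +
        ((WW (κ * (N / (Real.log N) ^ 2)) N H 2 1 3).card : ℝ) := by
  set ε' : ℝ := min (ε / 80) (1 / 2) with hε'
  have hε'0 : 0 < ε' := lt_min (by positivity) (by norm_num)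
  have hε'1 : ε' ≤ ε / 80 := min_le_left _ _
  have hε'2 : ε' ≤ 1 / 2 := min_le_right _ _
  obtain ⟨ε₁, hε₁, T₀, hT₀, hcomb⟩ := comb3 hPOL ε' hε'0
  obtain ⟨M, hM, h6, hcl⟩ := hclq (ε₁ / 4) (by positivity)
  obtain ⟨q, hMq⟩ := h6
  have hq : 0 < q := by omega
  have hMR : (1 : ℝ) ≤ M := by exact_mod_cast hM
  obtain ⟨κ, hκ, hev⟩ := hcl (lam / (3 * M)) (by positivity)
  obtain ⟨N₀, hN₀⟩ := eventually_atTop.1 hev
  refine ⟨κ / 4, by positivity, ?_⟩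
  have hlog : Tendsto (fun N : ℕ => lam * Real.log (N : ℝ)) atTop atTop :=
    (Real.tendsto_log_atTop.comp tendsto_natCast_atTop_atTop).const_mul_atTop hlam
  filter_upwards [hlog.eventually_ge_atTop (100 * (M + 20) / ε + 100 * M + 100 + 3 * M * (T₀ + 3)),
    eventually_ge_atTop (2 * N₀ + 1000 * M + 1000)] with N hNl hN H hH1 hH2
  have hHbig := hNl.trans hH1
  have hq1 : (0 : ℝ) ≤ 100 * (M + 20) / ε := by positivity
  have hq2 : (0 : ℝ) ≤ 3 * M * ((T₀ : ℝ) + 3) := by positivity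
  have hH100 : 100 * M + 100 ≤ H := by
    have : (100 * M + 100 : ℝ) ≤ H := by linarith
    exact_mod_cast this
  have hHT : 3 * M * (T₀ + 3) ≤ H := by
    have : ((3 * M * (T₀ + 3) : ℕ) : ℝ) ≤ H := by
      push_cast
      linarith
    exact_mod_cast this
  have hHε : 100 * ((M : ℝ) + 20) ≤ ε * H := by
    have h1 : 100 * ((M : ℝ) + 20) / ε ≤ H := by linarith
    rw [div_le_iff₀ hε] at h1
    linarith
  have hmain := three (τ := κ * ((8 * N / 9 : ℕ) / (Real.log ((8 * N / 9 : ℕ) : ℝ)) ^ 2))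
    hε hε'0 hε'1 hε'2 hε₁ (fun T hT A₀ A₁ A₂ A₃ a0 a1 a2 a3 htot E₁ E₂ E₃ E₄ E₅ E₆ b1 b2 b3 b4 b5 b6 =>
      hcomb T hT A₀ A₁ A₂ A₃ a0 a1 a2 a3 htot E₁ E₂ E₃ E₄ E₅ E₆ b1 b2 b3 b4 b5 b6)
    hMq hq hH100 hHT hHε (by omega) hH2 (by
      intro T hTH hMT _ f _ hf1 hf2
      refine hN₀ (8 * N / 9) (by omega) T ?_ (by omega) f hf1 hf2
      have hXpos : (0 : ℝ) < ((8 * N / 9 : ℕ) : ℝ) := by exact_mod_cast (by omega : 0 < 8 * N / 9)
      have h1 : Real.log ((8 * N / 9 : ℕ) : ℝ) ≤ Real.log N :=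
        Real.log_le_log hXpos (by exact_mod_cast (by omega : 8 * N / 9 ≤ N))
      rw [div_mul_eq_mul_div, div_le_iff₀ (by positivity)]
      exact ((mul_le_mul_of_nonneg_left h1 hlam.le).trans hH1).trans hTH)
  have hcv := convX hκ (X := 8 * N / 9) (N := N) (by omega) (by omega) (by omega)
  have hmono : ∀ a b e : ℤ, ((WW (κ * ((8 * N / 9 : ℕ) / (Real.log ((8 * N / 9 : ℕ) : ℝ)) ^ 2)) N H
      a b e).card : ℝ) ≤ ((WW (κ / 4 * (N / (Real.log N) ^ 2)) N H a b e).card : ℝ) := by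
    intro a b e
    rw [Nat.cast_le]
    apply card_le_card
    intro m hm
    unfold WW at hm ⊢
    rw [mem_filter] at hm ⊢
    exact ⟨hm.1, hcv.trans hm.2⟩
  have g1 := hmono 1 1 2
  have g2 := hmono 2 (-1) 1
  have g3 := hmono 2 1 3
  linarith

end Pool.Agent.K6.H45.RT
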