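import Pool.Agent.K6.H45.RT.Main
import Pool.Agent.K6.H45.RT.ClqB

/-! Three binary equations in bounded windows: assembly. -/

set_option autoImplicit false

namespace Pool.Agent.K6.H45.RT

open Finset Filter Topology
open Pool.Agent.N646.RG (S_POL)
open Pool.Agent.N646.RO (S_WC)

open Classical in
theorem mainB (hWC : S_WC) (hH : S_HITB) (hPOL : S_POL) (ε : ℝ) (hε : 0 < ε) :
    ∃ C : ℕ, ∀ᶠ N : ℕ in atTop, ∀ H : ℕ, C ≤ H → 50 * H ≤ N →
      (5 / 27 - ε) * H ≤ ((WW (N / (Real.log N) ^ C) N H 1 1 2).card : ℝ) +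
        ((WW (N / (Real.log N) ^ C) N H 2 (-1) 1).card : ℝ) +
        ((WW (N / (Real.log N) ^ C) N H 2 1 3).card : ℝ) := by
  set ε' : ℝ := min (ε / 80) (1 / 2) with hε'
  have hε'0 : 0 < ε' := lt_min (by positivity) (by norm_num)
  have hε'1 : ε' ≤ ε / 80 := min_le_left _ _
  have hε'2 : ε' ≤ 1 / 2 := min_le_right _ _
  obtain ⟨ε₁, hε₁, T₀, hT₀, hcomb⟩ := comb3 hPOL ε' hε'0
  obtain ⟨M, n₁, D, hM, h6, c, hc, hev⟩ := clqB hWC hH 4 (by norm_num) (ε₁ / 4) (by positivity)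
  obtain ⟨q, hMq⟩ := h6
  have hq : 0 < q := by omega
  have hMR : (1 : ℝ) ≤ M := by exact_mod_cast hM
  obtain ⟨N₀, hN₀⟩ := eventually_atTop.1 hev
  obtain ⟨C, hC⟩ : ∃ C : ℕ, C = D + 1 + ⌈100 * ((M : ℝ) + 20) / ε⌉₊ + 100 * M + 100 +
    3 * M * (T₀ + 3) + 3 * M * (n₁ + 1) := ⟨_, rfl⟩
  refine ⟨C, ?_⟩
  have hlog : Tendsto (fun N : ℕ => Real.log (N : ℝ)) atTop atTop :=
    Real.tendsto_log_atTop.comp tendsto_natCast_atTop_atTop
  filter_upwards [hlog.eventually_ge_atTop (4 / c + 1),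
    eventually_ge_atTop (2 * N₀ + 1000 * M + 1000)] with N hNl hN H hH1 hH2
  have hHR : (C : ℝ) ≤ H := by exact_mod_cast hH1
  have hq1 : 100 * ((M : ℝ) + 20) / ε ≤ (⌈100 * ((M : ℝ) + 20) / ε⌉₊ : ℝ) := Nat.le_ceil _
  have hCD : ⌈100 * ((M : ℝ) + 20) / ε⌉₊ ≤ C := by omega
  have hH100 : 100 * M + 100 ≤ H := by omega
  have hHT : 3 * M * (T₀ + 3) ≤ H := by omega
  have hHn : 3 * M * (n₁ + 1) ≤ H := by omega
  have hHε : 100 * ((M : ℝ) + 20) ≤ ε * H := by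
    have h1 : 100 * ((M : ℝ) + 20) / ε ≤ H := by
      have : ((⌈100 * ((M : ℝ) + 20) / ε⌉₊ : ℕ) : ℝ) ≤ C := by exact_mod_cast hCD
      linarith
    rw [div_le_iff₀ hε] at h1
    linarith
  have hmain := three (τ := c * ((8 * N / 9 : ℕ) / (Real.log ((8 * N / 9 : ℕ) : ℝ)) ^ D))
    hε hε'0 hε'1 hε'2 hε₁ (fun T hT A₀ A₁ A₂ A₃ a0 a1 a2 a3 htot E₁ E₂ E₃ E₄ E₅ E₆ b1 b2 b3 b4 b5 b6 =>
      hcomb T hT A₀ A₁ A₂ A₃ a0 a1 a2 a3 htot E₁ E₂ E₃ E₄ E₅ E₆ b1 b2 b3 b4 b5 b6)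
    hMq hq hH100 hHT hHε (by omega) hH2 (by
      intro T hTH hMT _ f hf0 hf1 hf2
      refine hN₀ (8 * N / 9) (by omega) T ?_ f hf0 hf1 hf2
      have h3 : H ≤ T * (3 * M) := by exact_mod_cast hTH
      have h4 : (n₁ + 1) * (3 * M) ≤ T * (3 * M) := by
        calc (n₁ + 1) * (3 * M) = 3 * M * (n₁ + 1) := by ring
          _ ≤ T * (3 * M) := hHn.trans h3
      have h5 : n₁ + 1 ≤ T := Nat.le_of_mul_le_mul_right h4 (by omega)
      omega)
  have hNpos : (0 : ℝ) < N := by exact_mod_cast (by omega : 0 < N)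
  have hXpos : (0 : ℝ) < ((8 * N / 9 : ℕ) : ℝ) := by exact_mod_cast (by omega : 0 < 8 * N / 9)
  have hlogN : 1 ≤ Real.log N := by
    have : 0 < 4 / c := by positivity
    linarith
  have hlogX0 : 0 ≤ Real.log ((8 * N / 9 : ℕ) : ℝ) := Real.log_natCast_nonneg _
  have hlogX : Real.log ((8 * N / 9 : ℕ) : ℝ) ≤ Real.log N :=
    Real.log_le_log hXpos (by exact_mod_cast (by omega : 8 * N / 9 ≤ N))
  have hlogX1 : 0 < Real.log ((8 * N / 9 : ℕ) : ℝ) :=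
    Real.log_pos (by exact_mod_cast (by omega : 1 < 8 * N / 9))
  have hcv : N / (Real.log N) ^ C ≤ c * ((8 * N / 9 : ℕ) / (Real.log ((8 * N / 9 : ℕ) : ℝ)) ^ D) := by
    have h1 : (N : ℝ) / (Real.log N) ^ C ≤ N / (Real.log N) ^ (D + 1) := by
      refine div_le_div_of_nonneg_left hNpos.le (by positivity) ?_
      exact pow_le_pow_right₀ hlogN (by omega)
    have h2 : (N : ℝ) / (Real.log N) ^ (D + 1) ≤ c * (N / 4 / (Real.log N) ^ D) := by
      rw [div_le_iff₀ (by positivity), pow_succ]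
      have h3 : c * (N / 4 / Real.log N ^ D) * (Real.log N ^ D * Real.log N) =
          c * N / 4 * Real.log N := by
        field_simp
      rw [h3]
      have h4 : 4 / c ≤ Real.log N := by linarith
      rw [div_le_iff₀ hc] at h4
      nlinarith
    have h3 : c * ((N : ℝ) / 4 / (Real.log N) ^ D) ≤
        c * ((8 * N / 9 : ℕ) / (Real.log ((8 * N / 9 : ℕ) : ℝ)) ^ D) := by
      refine mul_le_mul_of_nonneg_left ?_ hc.le
      refine div_le_div₀ hXpos.le ?_ (by positivity) (pow_le_pow_left₀ hlogX0 hlogX D)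
      have : (N : ℝ) ≤ 4 * ((8 * N / 9 : ℕ) : ℝ) := by exact_mod_cast (by omega : N ≤ 4 * (8 * N / 9))
      linarith
    linarith
  have hmono : ∀ a b e : ℤ, ((WW (c * ((8 * N / 9 : ℕ) / (Real.log ((8 * N / 9 : ℕ) : ℝ)) ^ D)) N H
      a b e).card : ℝ) ≤ ((WW (N / (Real.log N) ^ C) N H a b e).card : ℝ) := by
    intro a b e
    rw [Nat.cast_le]
    apply card_le_card
    intro m hm
    unfold WW at hm ⊢
    rw [mem_filter] at hm ⊢
    exact ⟨hm.1, hcv.trans hm.2⟩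
  have g1 := hmono 1 1 2
  have g2 := hmono 2 (-1) 1
  have g3 := hmono 2 1 3
  linarith

end Pool.Agent.K6.H45.RT
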