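import Mathlib

/-!
# Solutions of `a p + b q = m` in primes which are not small
-/

set_option autoImplicit false

namespace Pool.Agent.K6.H45.RT.Parts

open Finset Filter

open Classical in
/-- the number of the primes `p ≤ 2 N` such that `a p + b q = m` for some prime `q` -/
noncomputable def sol (a b : ℤ) (N : ℕ) (m : ℤ) : ℕ :=
  ((Icc 1 (2 * N)).filter (fun p : ℕ => p.Prime ∧ ∃ q : ℕ, q.Prime ∧ a * p + b * q = m)).card

open Classical in
/-- the number of the primes `p ≤ 2 N`, `p > N ^ θ`, such that `a p + b q = m` for some prime `q > N ^ θ` -/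
noncomputable def solT (θ : ℝ) (a b : ℤ) (N : ℕ) (m : ℤ) : ℕ :=
  ((Icc 1 (2 * N)).filter (fun p : ℕ => p.Prime ∧ (N : ℝ) ^ θ < p ∧
    ∃ q : ℕ, q.Prime ∧ (N : ℝ) ^ θ < q ∧ a * p + b * q = m)).card

open Classical in
/-- the number of the primes `p` with `(2 n) ^ θ < p < n` for which `2 n - p` is prime -/
noncomputable def parts (θ : ℝ) (n : ℕ) : ℕ :=
  ((range n).filter (fun p : ℕ => p.Prime ∧ ((2 * n : ℕ) : ℝ) ^ θ < p ∧ (2 * n - p).Prime)).card

/-- a set of positive integers `≤ x` has at most `x` elements -/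
theorem card_le_real (S : Finset ℕ) (x : ℝ) (hx : 0 ≤ x) (h : ∀ n ∈ S, 1 ≤ n ∧ (n : ℝ) ≤ x) :
    (S.card : ℝ) ≤ x := by
  have h1 : S ⊆ Icc 1 ⌊x⌋₊ := by
    intro n hn
    rw [mem_Icc]
    exact ⟨(h n hn).1, Nat.le_floor (h n hn).2⟩
  have h2 := card_le_card h1
  rw [Nat.card_Icc, Nat.add_sub_cancel] at h2
  calc (S.card : ℝ) ≤ (⌊x⌋₊ : ℝ) := by exact_mod_cast h2
    _ ≤ x := Nat.floor_le hx

open Classical in
theorem half_le (θ : ℝ) (n : ℕ) :
    (((range n).filter (fun p : ℕ => p.Prime ∧ (2 * n - p).Prime)).card : ℝ) ≤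
      parts θ n + ((2 * n : ℕ) : ℝ) ^ θ := by
  have h1 : (range n).filter (fun p : ℕ => p.Prime ∧ (2 * n - p).Prime) ⊆
      (range n).filter (fun p : ℕ => p.Prime ∧ ((2 * n : ℕ) : ℝ) ^ θ < p ∧ (2 * n - p).Prime) ∪
      (range n).filter (fun p : ℕ => p.Prime ∧ (p : ℝ) ≤ ((2 * n : ℕ) : ℝ) ^ θ) := by
    intro p hp
    rw [mem_filter] at hp
    rw [mem_union, mem_filter, mem_filter]
    rcases le_or_gt (p : ℝ) (((2 * n : ℕ) : ℝ) ^ θ) with h | h
    · exact Or.inr ⟨hp.1, hp.2.1, h⟩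
    · exact Or.inl ⟨hp.1, hp.2.1, h, hp.2.2⟩
  have h2 := (card_le_card h1).trans (card_union_le _ _)
  have h3 := card_le_real ((range n).filter (fun p : ℕ => p.Prime ∧ (p : ℝ) ≤ ((2 * n : ℕ) : ℝ) ^ θ))
    (((2 * n : ℕ) : ℝ) ^ θ) (by positivity) (fun p hp => by
      rw [mem_filter] at hp
      exact ⟨hp.2.1.one_lt.le, hp.2.2⟩)
  have h4 : (((range n).filter (fun p : ℕ => p.Prime ∧ (2 * n - p).Prime)).card : ℝ) ≤
      (parts θ n : ℝ) +
        (((range n).filter (fun p : ℕ => p.Prime ∧ (p : ℝ) ≤ ((2 * n : ℕ) : ℝ) ^ θ)).card : ℝ) := by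
    unfold parts
    exact_mod_cast h2
  linarith

/-- most of the solutions of `p + q = 2 n` are partitions with a prime between `(2 n) ^ θ` and `n` -/
theorem sol_even (θ : ℝ) (N n : ℕ) :
    (sol 1 1 N ((2 * n : ℕ) : ℤ) : ℝ) ≤ 2 * (parts θ n + ((2 * n : ℕ) : ℝ) ^ θ) + 1 := by
  classical
  obtain ⟨A, hA⟩ : ∃ A : Finset ℕ, A = (range n).filter (fun p : ℕ => p.Prime ∧ (2 * n - p).Prime) :=
    ⟨_, rfl⟩
  have h1 : (Icc 1 (2 * N)).filter (fun p : ℕ => p.Prime ∧ ∃ q : ℕ, q.Prime ∧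
      (1 : ℤ) * p + 1 * q = ((2 * n : ℕ) : ℤ)) ⊆ A ∪ (A.image (fun p => 2 * n - p) ∪ {n}) := by
    intro p hp
    rw [mem_filter] at hp
    obtain ⟨-, hp1, q, hq1, hpq⟩ := hp
    have hpq' : p + q = 2 * n := by
      have : (p : ℤ) + q = ((2 * n : ℕ) : ℤ) := by linarith
      exact_mod_cast this
    rw [mem_union, mem_union, mem_image, mem_singleton, hA]
    rcases lt_trichotomy p n with h | h | h
    · left
      rw [mem_filter, mem_range]
      have : 2 * n - p = q := by omega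
      rw [this]
      exact ⟨h, hp1, hq1⟩
    · exact Or.inr (Or.inr h)
    · right
      left
      refine ⟨q, ?_, by omega⟩
      rw [mem_filter, mem_range]
      have : 2 * n - q = p := by omega
      rw [this]
      exact ⟨by omega, hq1, hp1⟩
  have h2 : sol 1 1 N ((2 * n : ℕ) : ℤ) ≤ A.card + (A.card + 1) := by
    unfold sol
    refine (card_le_card h1).trans ((card_union_le _ _).trans ?_)
    apply Nat.add_le_add_left
    refine (card_union_le _ _).trans ?_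
    rw [card_singleton]
    exact Nat.add_le_add_right card_image_le _
  have h3 : (A.card : ℝ) ≤ parts θ n + ((2 * n : ℕ) : ℝ) ^ θ := by
    rw [hA]
    convert half_le θ n
  have h4 : (sol 1 1 N ((2 * n : ℕ) : ℤ) : ℝ) ≤ A.card + (A.card + 1) := by exact_mod_cast h2
  linarith

/-- odd numbers have at most two solutions -/
theorem sol_odd (N : ℕ) (m : ℤ) (hm : ¬ (2 : ℤ) ∣ m) : sol 1 1 N m ≤ 2 := by
  classical
  have h1 : (Icc 1 (2 * N)).filter (fun p : ℕ => p.Prime ∧ ∃ q : ℕ, q.Prime ∧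
      (1 : ℤ) * p + 1 * q = m) ⊆ {2, (m - 2).toNat} := by
    intro p hp
    rw [mem_filter] at hp
    obtain ⟨-, hp1, q, hq1, hpq⟩ := hp
    rw [mem_insert, mem_singleton]
    rcases hp1.eq_two_or_odd with h | h
    · exact Or.inl h
    · rcases hq1.eq_two_or_odd with h' | h'
      · right
        omega
      · exfalso
        apply hm
        omega
  unfold sol
  refine (card_le_card h1).trans ?_
  exact card_le_two

/-- most of the solutions have no small prime -/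
theorem sol_le (θ : ℝ) (a b : ℤ) (ha : a ≠ 0) (N : ℕ) (m : ℤ) :
    (sol a b N m : ℝ) ≤ solT θ a b N m + 2 * (N : ℝ) ^ θ := by
  classical
  obtain ⟨y, hy⟩ : ∃ y : ℝ, y = (N : ℝ) ^ θ := ⟨_, rfl⟩
  have hy0 : 0 ≤ y := by rw [hy]; positivity
  obtain ⟨S, hS⟩ : ∃ S : Finset ℕ, S = (Icc 1 (2 * N)).filter (fun p : ℕ => p.Prime ∧
    ∃ q : ℕ, q.Prime ∧ (q : ℝ) ≤ y ∧ a * p + b * q = m) := ⟨_, rfl⟩
  have hSc : (S.card : ℝ) ≤ y := by
    have hex : ∀ p : ℕ, ∃ q : ℕ, p ∈ S → q.Prime ∧ (q : ℝ) ≤ y ∧ a * p + b * q = m := by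
      intro p
      by_cases hp : p ∈ S
      · rw [hS, mem_filter] at hp
        obtain ⟨-, -, q, hq⟩ := hp
        exact ⟨q, fun _ => hq⟩
      · exact ⟨0, fun h => absurd h hp⟩
    choose f hf using hex
    rw [← card_image_of_injOn (f := f) (s := S)]
    · apply card_le_real _ _ hy0
      intro q hq
      rw [mem_image] at hq
      obtain ⟨p, hp, rfl⟩ := hq
      exact ⟨(hf p hp).1.one_lt.le, (hf p hp).2.1⟩
    · intro p hp p' hp' he
      have h1 := (hf p hp).2.2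
      have h2 := (hf p' hp').2.2
      rw [he] at h1
      have h3 : a * ((p : ℤ) - p') = 0 := by linarith
      rcases mul_eq_zero.1 h3 with h4 | h4
      · exact absurd h4 ha
      · omega
  obtain ⟨P, hP⟩ : ∃ P : Finset ℕ, P = (Icc 1 (2 * N)).filter (fun p : ℕ => (p : ℝ) ≤ y) := ⟨_, rfl⟩
  have hPc : (P.card : ℝ) ≤ y := by
    apply card_le_real _ _ hy0
    intro p hp
    rw [hP, mem_filter, mem_Icc] at hp
    exact ⟨hp.1.1, hp.2⟩
  have h1 : (Icc 1 (2 * N)).filter (fun p : ℕ => p.Prime ∧ ∃ q : ℕ, q.Prime ∧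
      a * (p : ℤ) + b * q = m) ⊆ (Icc 1 (2 * N)).filter (fun p : ℕ => p.Prime ∧ y < p ∧
    ∃ q : ℕ, q.Prime ∧ y < q ∧ a * p + b * q = m) ∪ (S ∪ P) := by
    intro p hp
    rw [mem_filter] at hp
    obtain ⟨hp0, hp1, q, hq1, hpq⟩ := hp
    rw [mem_union, mem_union, hS, hP, mem_filter, mem_filter, mem_filter]
    rcases le_or_gt (p : ℝ) y with h | h
    · exact Or.inr (Or.inr ⟨hp0, h⟩)
    · rcases le_or_gt (q : ℝ) y with h' | h'
      · exact Or.inr (Or.inl ⟨hp0, hp1, q, hq1, h', hpq⟩)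
      · exact Or.inl ⟨hp0, hp1, h, q, hq1, h', hpq⟩
  have h2 := (card_le_card h1).trans ((card_union_le _ _).trans
    (Nat.add_le_add_left (card_union_le _ _) _))
  have h3 : (sol a b N m : ℝ) ≤ solT θ a b N m + (S.card + P.card) := by
    unfold sol solT
    rw [← hy]
    exact_mod_cast h2
  rw [← hy]
  linarith

/-- `N ^ θ` is small compared with `N / log² N` -/
theorem ev_small (θ κ : ℝ) (hθ : θ < 1) (hκ : 0 < κ) :
    ∀ᶠ N : ℕ in atTop, 3 * (3 * (N : ℝ)) ^ θ + 3 ≤ κ * (N / Real.log N ^ 2) := by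
  obtain ⟨η, hη⟩ : ∃ η : ℝ, η = max θ 0 := ⟨_, rfl⟩
  have hη0 : 0 ≤ η := by rw [hη]; exact le_max_right _ _
  have hη1 : η < 1 := by rw [hη]; exact max_lt hθ one_pos
  have hθη : θ ≤ η := by rw [hη]; exact le_max_left _ _
  obtain ⟨s, hs⟩ : ∃ s : ℝ, s = (1 - η) / 2 := ⟨_, rfl⟩
  have hs0 : 0 < s := by rw [hs]; linarith
  -- `log² N ≤ N ^ s`
  have h1 : ∀ᶠ N : ℕ in atTop, Real.log N ^ 2 ≤ (N : ℝ) ^ s := by
    have h := ((isLittleO_log_rpow_rpow_atTop ((2 : ℕ) : ℝ) hs0).comp_tendsto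
      tendsto_natCast_atTop_atTop).bound (by norm_num : (0 : ℝ) < 1)
    filter_upwards [h, eventually_ge_atTop 1] with N hN hN1
    have hN1' : (1 : ℝ) ≤ N := by exact_mod_cast hN1
    have hl := Real.log_nonneg hN1'
    simp only [Function.comp_def, Real.rpow_natCast, one_mul] at hN
    rw [Real.norm_of_nonneg (by positivity), Real.norm_of_nonneg (by positivity)] at hN
    exact hN
  -- `12 / κ ≤ N ^ s`
  have h2 : ∀ᶠ N : ℕ in atTop, 12 / κ ≤ (N : ℝ) ^ s :=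
    ((tendsto_rpow_atTop hs0).comp tendsto_natCast_atTop_atTop).eventually_ge_atTop (12 / κ)
  filter_upwards [h1, h2, eventually_ge_atTop 3] with N hN1 hN2 hN3
  have hNr : (3 : ℝ) ≤ N := by exact_mod_cast hN3
  have hN0 : (0 : ℝ) < N := by linarith
  have hlog : 0 < Real.log N := Real.log_pos (by linarith)
  have e1 : (3 * (N : ℝ)) ^ θ ≤ 3 * (N : ℝ) ^ η := by
    calc (3 * (N : ℝ)) ^ θ ≤ (3 * (N : ℝ)) ^ η :=
          Real.rpow_le_rpow_of_exponent_le (by linarith) hθη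
      _ = 3 ^ η * (N : ℝ) ^ η := Real.mul_rpow (by norm_num) hN0.le
      _ ≤ 3 ^ (1 : ℝ) * (N : ℝ) ^ η := by
          apply mul_le_mul_of_nonneg_right _ (by positivity)
          exact Real.rpow_le_rpow_of_exponent_le (by norm_num) hη1.le
      _ = 3 * (N : ℝ) ^ η := by rw [Real.rpow_one]
  have e2 : 1 ≤ (N : ℝ) ^ η := Real.one_le_rpow (by linarith) hη0
  have e3 : (N : ℝ) = (N : ℝ) ^ η * ((N : ℝ) ^ s * (N : ℝ) ^ s) := by
    rw [← Real.rpow_add hN0, ← Real.rpow_add hN0]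
    have : η + (s + s) = 1 := by rw [hs]; ring
    rw [this, Real.rpow_one]
  obtain ⟨u, hu⟩ : ∃ u : ℝ, u = (N : ℝ) ^ s := ⟨_, rfl⟩
  obtain ⟨v, hv⟩ : ∃ v : ℝ, v = (N : ℝ) ^ η := ⟨_, rfl⟩
  rw [← hu] at hN1 hN2 e3
  rw [← hv] at e1 e2 e3
  have hu0 : 0 < u := by rw [hu]; positivity
  have e4 : 12 * v ≤ κ * (N / Real.log N ^ 2) := by
    have e5 : v * u ≤ N / Real.log N ^ 2 := by
      rw [le_div_iff₀ (by positivity)]
      calc v * u * Real.log N ^ 2 ≤ v * u * u := by gcongr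
        _ = N := by rw [mul_assoc]; exact e3.symm
    have e6 : 12 ≤ κ * u := by
      rw [div_le_iff₀ hκ] at hN2
      linarith
    calc 12 * v ≤ κ * u * v := mul_le_mul_of_nonneg_right e6 (by linarith)
      _ = κ * (v * u) := by ring
      _ ≤ _ := mul_le_mul_of_nonneg_left e5 hκ.le
  linarith

end Pool.Agent.K6.H45.RT.Parts
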