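import Pool.Agent.N646.RO.Stm

/-!
The right order of magnitude for the forms `± n + c` and `± 2 n + c`. Statements (after
`Pool.Agent.N646.RG.Stm`, the case of the forms `± n + c`).
-/

set_option autoImplicit false

namespace Pool.Agent.K6.H45.RT

open Finset Filter Topology
open Pool.Agent.N646.RO (Rgh)

/-- the value of the form `f.1 n + f.2` at `n` -/
def ev (f : ℤ × ℤ) (n : ℕ) : ℤ := f.1 * n + f.2

/-- the form `f + t` -/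
def sh (f : ℤ × ℤ) (t : ℕ) : ℤ × ℤ := (f.1, f.2 + t)

/-- `f` is `± n + c` or `± 2 n + c` (`c` odd), `|c| ≤ 6 N / 5` and the values at the reals in
`[N / 16, N / 2]` are at least `N / 20` -/
def Afm (N : ℕ) (f : ℤ × ℤ) : Prop :=
  (f.1 = 1 ∨ f.1 = -1 ∨ ((f.1 = 2 ∨ f.1 = -2) ∧ f.2 % 2 = 1)) ∧ 5 * |f.2| ≤ 6 * N ∧
    ∀ t : ℝ, (N : ℝ) / 16 ≤ t → t ≤ N / 2 → (N : ℝ) / 20 ≤ f.1 * t + f.2

/-- the range of the variable -/
def IN (N : ℕ) : Finset ℕ := Icc (N / 18) (N / 2 + N / 100)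

/-- the number of the `n` in the range for which all `F i` are prime is at least
`κ N / (log N) ^ (k + 1)` -/
def Gdf {k : ℕ} (κ : ℝ) (N : ℕ) (F : Fin (k + 1) → ℤ × ℤ) : Prop :=
  κ * (N / (Real.log N) ^ (k + 1)) ≤
    (((IN N).filter (fun n : ℕ => ∀ i, (ev (F i) n).toNat.Prime)).card : ℝ)

open Classical in
/-- **HIT2** one configuration: `T` classes with `K` forms each. -/
def S_HIT2 : Prop := ∀ T M : ℕ, 1 ≤ T → (18 / 5 : ℝ) * M < T → ∃ K s : ℕ, 1 ≤ K ∧ ∃ δ c : ℝ, 0 < δ ∧ 0 < c ∧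
  ∀ᶠ N : ℕ in atTop, ∀ f : Fin T × Fin K → ℤ × ℤ, Function.Injective f → (∀ x, Afm N (f x)) →
    (∀ p : ℕ, p.Prime → p ≤ T * K → ∃ r : ℤ, ∀ x, ¬ (p : ℤ) ∣ (f x).1 * r + (f x).2) →
    ∃ (S : Finset (Fin T)) (σ : Fin T → Fin K), M + 1 ≤ S.card ∧
      c * (N / (Real.log N) ^ (T * K)) ≤
        ∑ n ∈ (IN N).filter (fun n : ℕ => (∀ x, Rgh δ N (ev (f x) n)) ∧
            ∀ g ∈ S, (ev (f (g, σ g)) n).toNat.Prime),
          (((range (⌊Real.log N⌋₊ + s + 1)).filter (fun j : ℕ => Rgh δ N (n - j))).card : ℝ)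

open Classical in
/-- **WB2** moments of the number of rough values in windows. -/
def S_WB2 : Prop := ∀ (δ lam : ℝ) (M r : ℕ), 0 < δ → 0 < lam → 1 ≤ M → ∃ C : ℝ, 0 < C ∧
  ∀ᶠ N : ℕ in atTop, ∀ T : ℕ, lam * Real.log N ≤ T → 2 * (M * T) ≤ N → ∀ f : ℤ × ℤ, Afm N f →
    ∑ n ∈ IN N, (((range T).filter (fun t : ℕ => Rgh δ N (ev (sh f (M * t)) n))).card : ℝ) ^ r ≤
      C * N * (T / Real.log N) ^ r

open Classical in
/-- **E12** the second moment of the number of rough integers just below `n`, over all configurations. -/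
def S_E12 : Prop := ∀ (T K s M₀ : ℕ) (δ lam : ℝ), 1 ≤ T → 1 ≤ K → 0 < δ → 0 < lam → 1 ≤ M₀ →
  ∃ C : ℝ, 0 < C ∧ ∀ᶠ N : ℕ in atTop, ∀ T₁ : ℕ, lam * Real.log N ≤ T₁ → 2 * (M₀ * T₁) ≤ N →
    ∀ f : Fin T × Fin K → ℤ × ℤ, (∀ x, Afm N (f x)) →
    ∑ H ∈ Fintype.piFinset (fun _ : Fin T × Fin K => range T₁),
      ∑ n ∈ (IN N).filter (fun n : ℕ => ∀ x, Rgh δ N (ev (sh (f x) (M₀ * H x)) n)),
        (((range (⌊Real.log N⌋₊ + s + 1)).filter (fun j : ℕ => Rgh δ N (n - j))).card : ℝ) ^ 2 ≤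
      C * N * (T₁ / Real.log N) ^ (T * K)

open Classical in
/-- **E22** the bad tuples contribute little. -/
def S_E22 (k : ℕ) : Prop := ∀ (T K M₀ : ℕ) (δ lam : ℝ), 0 < δ → 0 < lam → 1 ≤ M₀ →
  ∃ C : ℝ, 0 < C ∧ ∀ᶠ N : ℕ in atTop, ∀ T₁ : ℕ, lam * Real.log N ≤ T₁ → 2 * (M₀ * T₁) ≤ N →
    ∀ f : Fin T × Fin K → ℤ × ℤ, (∀ x, Afm N (f x)) →
    ∀ κ : ℝ, 0 < κ → κ ≤ 1 → ∀ π : Fin (k + 1) → Fin T × Fin K, Function.Injective π →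
    ∑ H ∈ (Fintype.piFinset (fun _ : Fin T × Fin K => range T₁)).filter
        (fun H => ¬ Gdf κ N (fun i => sh (f (π i)) (M₀ * H (π i)))),
      (((IN N).filter (fun n : ℕ => (∀ x, Rgh δ N (ev (sh (f x) (M₀ * H x)) n)) ∧
        ∀ i, (ev (sh (f (π i)) (M₀ * H (π i))) n).toNat.Prime)).card : ℝ) ≤
      C * Real.sqrt κ * N * (T₁ / Real.log N) ^ (T * K)

open Classical in
/-- **HITM2** for most configurations there is a large transversal all of whose `k + 1` element subsets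
have the right order of magnitude. -/
def S_HITM2 (k : ℕ) : Prop := ∀ T M : ℕ, 1 ≤ T → (18 / 5 : ℝ) * M < T → ∃ K : ℕ, 1 ≤ K ∧
  ∀ M₀ : ℕ, 1 ≤ M₀ → ∀ lam δ' : ℝ, 0 < lam → 0 < δ' →
  ∃ κ : ℝ, 0 < κ ∧ ∀ᶠ N : ℕ in atTop, ∀ T₁ : ℕ, lam * Real.log N ≤ T₁ → 2 * (M₀ * T₁) ≤ N →
    ∀ f : Fin T × Fin K → ℤ × ℤ, (∀ x, ∀ t ≤ T₁, Afm N (sh (f x) (M₀ * t))) →
    (∀ p : ℕ, p.Prime → p ≤ T * K → p ∣ M₀ ∧ ∃ r : ℤ, ∀ x, ¬ (p : ℤ) ∣ (f x).1 * r + (f x).2) →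
    (((Fintype.piFinset (fun _ : Fin T × Fin K => range T₁)).filter (fun H =>
      ¬ ∃ (S : Finset (Fin T)) (σ : Fin T → Fin K), M + 1 ≤ S.card ∧
        ∀ g : Fin (k + 1) → Fin T, Function.Injective g → (∀ i, g i ∈ S) →
          Gdf κ N (fun i => sh (f (g i, σ (g i))) (M₀ * H (g i, σ (g i)))))).card : ℝ) ≤
      δ' * (T₁ : ℝ) ^ (T * K)

end Pool.Agent.K6.H45.RT
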